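import Pool.Agent.W5h69.PT.Rad

set_option autoImplicit false

/-!
Consequences for the question on subcomplexes of contractible complexes.
-/

namespace Pool.Agent.W5h69.PT

open Function
open scoped commutatorElement
open Pool.Agent.R655.LI (Cx Sub LocInd PInd NN Perf NGen OneCell Question fg_map clk single delSub)

/-- `N` is the normal closure of an element of a finitely generated perfect subgroup. -/
def NPerf {G : Type} [Group G] (N : Subgroup G) : Prop :=
  ∃ M : Subgroup G, M.FG ∧ ⁅M, M⁆ = M ∧ ∃ x ∈ M, Subgroup.normalClosure {x} = N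

/-- `N` has a nontrivial homomorphism to a locally `p`-indicable group, for some prime `p`. -/
def HasHomP {G : Type} [Group G] (N : Subgroup G) : Prop :=
  ∃ p : ℕ, p.Prime ∧ ∃ (A : Type) (_ : Group A) (f : N →* A), PInd p A ∧ f ≠ 1

section
variable {G : Type} [Group G]

lemma perf_bot (h : LocInd G) {M : Subgroup G} (hfg : M.FG) (hM : ⁅M, M⁆ = M) : M = ⊥ := by
  by_contra hne
  obtain ⟨f, hf⟩ := h M hfg hne
  obtain ⟨x, hx⟩ := hf (Multiplicative.ofAdd 1)
  rw [nohom_of_perfect hM f] at hx
  have h2 : (0 : ℤ) = 1 := congrArg Multiplicative.toAdd hx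
  exact zero_ne_one h2

lemma nperf_bot (h : LocInd G) {N : Subgroup G} (hN : NPerf N) : N = ⊥ := by
  obtain ⟨M, h1, h2, x, hx, h3⟩ := hN
  rw [perf_bot h h1 h2, Subgroup.mem_bot] at hx
  subst hx
  rw [← h3, eq_bot_iff]
  refine Subgroup.normalClosure_le_normal ?_
  rintro _ rfl
  exact Subgroup.one_mem _

/-- Groups that are not locally indicable, with independent relators modulo all primes. -/
lemma exists_perf (h : Hull {p | p.Prime} G) (hG : ¬ LocInd G) :
    ∃ M : Subgroup G, M.FG ∧ ⁅M, M⁆ = M ∧ M ≠ ⊥ := by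
  unfold LocInd at hG
  push Not at hG
  obtain ⟨H, hfg, hH, hs⟩ := hG
  obtain ⟨M, h1, h2⟩ := h H (pz_of hfg (by push Not; exact hs))
  refine ⟨M, h2.1, perfect_of h2.1 (fun p hp => h2.2.2 p hp), ?_⟩
  rintro rfl
  exact hH (le_bot_iff.1 h1)

theorem locInd_iff_perf (h : Hull {p | p.Prime} G) :
    LocInd G ↔ ∀ M : Subgroup G, M.FG → ⁅M, M⁆ = M → M = ⊥ := by
  refine ⟨fun hG M h1 h2 => perf_bot hG h1 h2, fun hM => ?_⟩
  by_contra hG
  obtain ⟨M, h1, h2, h3⟩ := exists_perf h hG
  exact h3 (hM M h1 h2)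

/-- no homomorphisms from `N` to locally `p`-indicable groups -/
lemma no_hasHomP {N : Subgroup G} (hn : N.Normal) (hN : NPerf N) (hc : ∀ M : Subgroup G,
    ⁅M, M⁆ = M → M ≤ N) : ¬ HasHomP N := by
  rintro ⟨p, hp, A, _, f, hA, hf⟩
  obtain ⟨M, h1, h2, x, hx, h3⟩ := hN
  have hMN := hc M h2
  refine hf (Pool.Agent.R655.LI.hom_trivial N hn M.subtype (fun k => hMN k.2) ⟨x, hx⟩ h3 ?_ f)
  intro ψ
  by_contra hψ
  have : Group.FG M := (Group.fg_iff_subgroup_fg M).2 h1
  obtain ⟨g, hg⟩ := hA ψ.range (by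
    have h4 : (⊤ : Subgroup M).FG := Group.FG.out
    have h5 := fg_map ψ h4
    rwa [← MonoidHom.range_eq_map] at h5) (by
    intro hb
    have h4 : ψ ⟨x, hx⟩ ∈ ψ.range := ⟨_, rfl⟩
    rw [hb, Subgroup.mem_bot] at h4
    exact hψ h4)
  apply hg
  have h6 := nohom_of_perfect h2 (g.comp ψ.rangeRestrict)
  ext y
  obtain ⟨z, rfl⟩ := ψ.rangeRestrict_surjective y
  exact DFunLike.congr_fun h6 z

end

/-- The hull property for subcomplexes of contractible complexes. -/
lemma hull_sub {K L : Cx} (i : Sub K L) (hL : L.Contractible) : Hull {p | p.Prime} K.Pi :=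
  hull_cx (fun _ hp => hp) fun p _ => h2zero_of_sub i hL p

/-- A counterexample gives a pair. -/
theorem exists_pair (P : Cx → Prop) (hP : ∀ L L' : Cx, (L.IsFin → L'.IsFin) → P L → P L')
    (h : ¬ Question P) : ∃ (L : Cx) (e : L.R), OneCell L e ∧ P L ∧ Perf (NN L e) ∧
      NN L e ≠ ⊥ ∧ NPerf (NN L e) := by
  unfold Question at h
  push Not at h
  obtain ⟨K, L, i, hL, hPL, hK⟩ := h
  obtain ⟨M, h1, h2, h3⟩ := exists_perf (hull_sub i hL) hK
  obtain ⟨x, hx⟩ := Subgroup.ne_bot_iff_exists_ne_one.1 h3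
  have hx1 : (x : K.Pi) ≠ 1 := fun h => hx (Subtype.ext h)
  obtain ⟨L', t, e, s, ⟨f1, f2, f3, f4, f5, f6⟩, hN⟩ := single K L i hL x.1 hx1
  refine ⟨L', e, ⟨f1, t, f2⟩, hP L L' f3 hPL, f6, ?_, M.map s.map, fg_map _ h1, ?_,
    s.map x.1, ⟨x.1, x.2, rfl⟩, hN⟩
  · intro hb
    have := f5 x.1
    change s.map x.1 ∈ NN L' e at this
    rw [hb, Subgroup.mem_bot] at this
    exact hx1 (f4 (this.trans (map_one s.map).symm))
  · rw [← Subgroup.map_commutator, h2]

theorem question_iff (P : Cx → Prop) (hP : ∀ L L' : Cx, (L.IsFin → L'.IsFin) → P L → P L') :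
    Question P ↔ ∀ (L : Cx) (e : L.R), OneCell L e → P L → NPerf (NN L e) → NN L e = ⊥ := by
  constructor
  · intro h L e hL hPL hN
    exact nperf_bot (h (L.del e) L (delSub L e) hL.1 hPL) hN
  · intro h
    by_contra hQ
    obtain ⟨L, e, h1, h2, _, h4, h5⟩ := exists_pair P hP hQ
    exact h4 (h L e h1 h2 h5)

theorem question_iff' (P : Cx → Prop) (hP : ∀ L L' : Cx, (L.IsFin → L'.IsFin) → P L → P L') :
    Question P ↔ ∀ (L : Cx) (e : L.R), OneCell L e → P L → Perf (NN L e) →
      (∃ h, NGen (NN L e) h) → NN L e ≠ ⊥ → HasHomP (NN L e) := by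
  constructor
  · intro h L e hL hPL _ _ hN
    refine ⟨2, Nat.prime_two, (L.del e).Pi, inferInstance, (NN L e).subtype,
      LocInd.pind (by norm_num) (h (L.del e) L (delSub L e) hL.1 hPL), ?_⟩
    intro h1
    refine hN ((Subgroup.eq_bot_iff_forall _).2 fun x hx => ?_)
    exact DFunLike.congr_fun h1 (⟨x, hx⟩ : NN L e)
  · intro h
    by_contra hQ
    obtain ⟨L, e, h1, h2, h3, h4, h5⟩ := exists_pair P hP hQ
    have hn : (NN L e).Normal := inferInstanceAs (commutator _).Normal
    refine no_hasHomP hn h5 ?_ (h L e h1 h2 h3 (by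
      obtain ⟨M, _, _, x, _, hx⟩ := h5
      exact ⟨x, hx⟩) h4)
    intro M hM
    rw [← hM]
    exact Subgroup.commutator_mono le_top le_top

/-- Q1 in terms of perfect subgroups. -/
theorem question_perf (P : Cx → Prop) :
    Question P ↔ ∀ (K L : Cx) (_ : Sub K L), L.Contractible → P L →
      ∀ M : Subgroup K.Pi, M.FG → ⁅M, M⁆ = M → M = ⊥ := by
  constructor
  · intro h K L i hL hPL
    exact (locInd_iff_perf (hull_sub i hL)).1 (h K L i hL hPL)
  · intro h K L i hL hPL
    exact (locInd_iff_perf (hull_sub i hL)).2 (h K L i hL hPL)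

/-- Q1 in terms of homomorphisms to `ℤ/p`. -/
theorem question_pind (P : Cx → Prop) {p : ℕ} (hp : p.Prime) :
    Question P ↔ ∀ (K L : Cx) (_ : Sub K L), L.Contractible → P L → PInd p K.Pi := by
  have hH : ∀ (K L : Cx) (_ : Sub K L), L.Contractible → Hull {p} K.Pi := fun K L i hL =>
    hull_cx (by rintro q rfl; exact hp) fun q _ => h2zero_of_sub i hL q
  constructor
  · intro h K L i hL hPL
    exact (locInd_iff hp.ne_one (hH K L i hL)).1 (h K L i hL hPL)
  · intro h K L i hL hPL
    exact (locInd_iff hp.ne_one (hH K L i hL)).2 (h K L i hL hPL)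

/-! ### Groups of deficiency one and weight one -/

/-- `K` is a finite presentation of deficiency one, and its group is the normal closure of the
generator `t`. -/
def Def1 (K : Cx) (t : K.V) : Prop :=
  K.IsFin ∧ Nat.card K.V = Nat.card K.R + 1 ∧
    Subgroup.normalClosure {(PresentedGroup.of t : K.Pi)} = ⊤

lemma surj_of_trivial {L : Cx} (hL : ∀ x : L.Pi, x = 1) : Surjective L.bdry := by
  rw [← LinearMap.range_eq_top, eq_top_iff]
  have key : ∀ v : L.V, Finsupp.single v (1 : ℤ) ∈ LinearMap.range L.bdry := by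
    intro v
    let M := LinearMap.range L.bdry
    let q : (L.V →₀ ℤ) →+ (L.V →₀ ℤ) ⧸ M := M.mkQ.toAddMonoidHom
    let f : FreeGroup L.V →* Multiplicative ((L.V →₀ ℤ) ⧸ M) :=
      (AddMonoidHom.toMultiplicative q).comp (Pool.Agent.R655.LI.expSum L.V)
    have hf : ∀ x ∈ Set.range L.r, FreeGroup.lift (fun v => f (FreeGroup.of v)) x = 1 := by
      rintro _ ⟨j, rfl⟩
      have : FreeGroup.lift (fun v => f (FreeGroup.of v)) = f := by
        ext1 v
        simp
      rw [this]
      change Multiplicative.ofAdd (M.mkQ (Pool.Agent.R655.LI.expSum L.V (L.r j)).toAdd) = 1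
      have : M.mkQ (Pool.Agent.R655.LI.expSum L.V (L.r j)).toAdd = 0 := by
        rw [Submodule.mkQ_apply, Submodule.Quotient.mk_eq_zero]
        refine ⟨Finsupp.single j 1, ?_⟩
        simp [Cx.bdry]
      rw [this]
      rfl
    have h1 := congrArg (PresentedGroup.toGroup hf) (hL (PresentedGroup.of v))
    rw [map_one, PresentedGroup.toGroup.of] at h1
    have h2 : M.mkQ (Pool.Agent.R655.LI.expSum L.V (FreeGroup.of v)).toAdd = 0 :=
      congrArg Multiplicative.toAdd h1
    rw [Pool.Agent.R655.LI.expSum_of, Submodule.mkQ_apply, Submodule.Quotient.mk_eq_zero] at h2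
    exact h2
  intro x _
  induction x using Finsupp.induction_linear with
  | zero => exact Submodule.zero_mem _
  | add a b ha hb => exact Submodule.add_mem _ (ha trivial) (hb trivial)
  | single v z =>
    have : Finsupp.single v z = z • Finsupp.single v (1 : ℤ) := by simp
    rw [this]
    exact Submodule.smul_mem _ _ (key v)

/-- attach a 2-cell along the 1-cell `t` -/
def addC (K : Cx) (t : K.V) : Cx where
  V := K.V
  R := Option K.R
  r o := o.elim (FreeGroup.of t) K.r

/-- `K` in `addC K t` -/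
def addSub (K : Cx) (t : K.V) : Sub K (addC K t) where
  v := Function.Embedding.refl _
  c := Function.Embedding.some
  comm j := by
    change FreeGroup.map id _ = _
    rw [FreeGroup.map.id]
    rfl

lemma addC_contractible {K : Cx} {t : K.V} (h : Def1 K t) : (addC K t).Contractible := by
  obtain ⟨⟨h1, h2⟩, h3, h4⟩ := h
  have hpi : ∀ x : (addC K t).Pi, x = 1 := by
    intro x
    obtain ⟨w, rfl⟩ := QuotientGroup.mk_surjective x
    have h5 : (PresentedGroup.mk (Set.range K.r) w) ∈
        Subgroup.normalClosure {(PresentedGroup.of t : K.Pi)} := by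
      rw [h4]
      exact Subgroup.mem_top _
    have h6 : Subgroup.normalClosure {(PresentedGroup.of t : K.Pi)} ≤
        (addSub K t).map.ker := by
      refine Subgroup.normalClosure_le_normal ?_
      rintro _ rfl
      change (addSub K t).map (PresentedGroup.of t) = 1
      rw [Pool.Agent.R655.LI.map_of]
      exact PresentedGroup.one_of_mem ⟨none, rfl⟩
    have h7 : (addSub K t).map (PresentedGroup.mk (Set.range K.r) w) = 1 := h6 h5
    have h8 : (addSub K t).map.comp (PresentedGroup.mk (Set.range K.r)) =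
        PresentedGroup.mk (Set.range (addC K t).r) := by
      ext v
      exact Pool.Agent.R655.LI.map_of (addSub K t) v
    have h9 : (addSub K t).map (PresentedGroup.mk (Set.range K.r) w) =
        PresentedGroup.mk (Set.range (addC K t).r) w := DFunLike.congr_fun h8 w
    exact h9.symm.trans h7
  refine ⟨hpi, ?_⟩
  have hs := surj_of_trivial hpi
  have hfR : Finite (addC K t).R := inferInstanceAs (Finite (Option K.R))
  have hfV : Finite (addC K t).V := h1
  have hcard : Nat.card (addC K t).R = Nat.card (addC K t).V := by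
    change Nat.card (Option K.R) = Nat.card K.V
    rw [h3, Finite.card_option]
  have : Fintype (addC K t).R := Fintype.ofFinite _
  have : Fintype (addC K t).V := Fintype.ofFinite _
  rw [Nat.card_eq_fintype_card, Nat.card_eq_fintype_card] at hcard
  let ε : (addC K t).R ≃ (addC K t).V := Fintype.equivOfCardEq hcard
  let E : ((addC K t).V →₀ ℤ) ≃ₗ[ℤ] ((addC K t).R →₀ ℤ) := Finsupp.domLCongr ε.symm
  have h10 : Surjective (E.toLinearMap ∘ₗ (addC K t).bdry) := E.surjective.comp hs
  have h11 := OrzechProperty.injective_of_surjective_endomorphism _ h10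
  intro a b hab
  apply h11
  rw [LinearMap.comp_apply, LinearMap.comp_apply, hab]

lemma def1_of {L : Cx} {e : L.R} (h : OneCell L e) (hf : L.IsFin) : ∃ t, Def1 (L.del e) t := by
  classical
  obtain ⟨hL, t, ht⟩ := h
  obtain ⟨hV, hR⟩ := hf
  refine ⟨t, ⟨hV, inferInstanceAs (Finite {k : L.R // k ≠ e})⟩, ?_, ?_⟩
  · let E := LinearEquiv.ofBijective L.bdry ⟨hL.bdry_inj, Pool.Agent.R655.LI.bdry_surj hL⟩
    have : Fintype L.V := Fintype.ofFinite _
    have : Fintype L.R := Fintype.ofFinite _
    have h1 := E.finrank_eq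
    rw [Module.finrank_finsupp_self, Module.finrank_finsupp_self] at h1
    change Nat.card L.V = Nat.card {k : L.R // k ≠ e} + 1
    have h2 : Nat.card (Option {k : L.R // k ≠ e}) = Nat.card L.R :=
      Nat.card_congr (Equiv.optionSubtypeNe e)
    rw [Finite.card_option] at h2
    rw [h2, Nat.card_eq_fintype_card, Nat.card_eq_fintype_card, h1]
  · rw [eq_top_iff]
    intro x _
    let q : FreeGroup L.V →* (L.del e).Pi := PresentedGroup.mk (Set.range (L.del e).r)
    obtain ⟨w, rfl⟩ : ∃ w : FreeGroup L.V, q w = x := QuotientGroup.mk_surjective x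
    have h1 : w ∈ Subgroup.normalClosure (Set.range L.r) :=
      (QuotientGroup.eq_one_iff w).1 (hL.pi_eq_one (PresentedGroup.mk (Set.range L.r) w))
    let T : Subgroup (L.del e).Pi := Subgroup.normalClosure {(PresentedGroup.of t : (L.del e).Pi)}
    have hT : T.Normal := Subgroup.normalClosure_normal
    have h2 : Subgroup.normalClosure (Set.range L.r) ≤ T.comap q := by
      have : (T.comap q).Normal := hT.comap q
      refine Subgroup.normalClosure_le_normal ?_
      rintro _ ⟨k, rfl⟩
      rw [SetLike.mem_coe, Subgroup.mem_comap]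
      by_cases hk : k = e
      · subst hk
        rw [ht]
        exact Subgroup.subset_normalClosure rfl
      · have h3 : q (L.r k) = 1 := PresentedGroup.one_of_mem ⟨⟨k, hk⟩, rfl⟩
        rw [h3]
        exact Subgroup.one_mem _
    exact h2 h1

/-- Q1 for finite complexes in terms of groups of deficiency one and weight one. -/
theorem question_def1 :
    (Question Cx.IsFin ↔ ∀ (K : Cx) (t : K.V), Def1 K t → LocInd K.Pi) ∧
    (Question Cx.IsFin ↔ ∀ (K : Cx) (t : K.V), Def1 K t → NPerf (commutator K.Pi) →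
      commutator K.Pi = ⊥) := by
  have h1 : Question Cx.IsFin → ∀ (K : Cx) (t : K.V), Def1 K t → LocInd K.Pi := by
    intro h K t hK
    refine h K (addC K t) (addSub K t) (addC_contractible hK) ⟨hK.1.1, ?_⟩
    have := hK.1.2
    exact inferInstanceAs (Finite (Option K.R))
  have h2 : (∀ (K : Cx) (t : K.V), Def1 K t → NPerf (commutator K.Pi) →
      commutator K.Pi = ⊥) → Question Cx.IsFin := by
    intro h
    rw [question_iff _ (fun _ _ h => h)]
    intro L e hL hf hN
    obtain ⟨t, ht⟩ := def1_of hL hf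
    exact h (L.del e) t ht hN
  exact ⟨⟨h1, fun h => h2 fun K t hK hN => nperf_bot (h K t hK) hN⟩,
    ⟨fun h K t hK hN => nperf_bot (h1 h K t hK) hN, h2⟩⟩

end Pool.Agent.W5h69.PT
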