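import Pool.Agent.W5h69.PT.Step

set_option autoImplicit false

/-!
The tower of subgroups of index `p`, and integral lifts.
-/

namespace Pool.Agent.W5h69.PT

open Function

variable {F : Type} [Group F] {I J : Type} {j : I → J} {ρ : J → F} {u : I → F} {p : ℕ}

lemma EP_mono {Γ Γ₀ : Subgroup F} (hle : Γ₀ ≤ Γ)
    (h : ∀ i i', u i * (u i')⁻¹ ∈ Γ → u i * (u i')⁻¹ ∈ Γ₀) (hE : EP j ρ u p Γ) :
    EP j ρ u p Γ₀ := by
  intro b hb
  obtain ⟨g, hg, hgb⟩ := hE b fun i i' h1 h2 => hb i i' h1 (h i i' h2)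
  exact ⟨g, hg.mono hle, hgb⟩

/-- additive functions vanish on a subgroup if they vanish on generators -/
lemma HmOn.zero_of_closure {A : Type} [AddCommGroup A] {S : Set F} {g : F → A}
    (hg : HmOn (Subgroup.closure S) g) (h : ∀ x ∈ S, g x = 0) :
    ∀ x ∈ Subgroup.closure S, g x = 0 := by
  have : Subgroup.closure S ≤ hg.ker :=
    (Subgroup.closure_le _).2 fun x hx => ⟨Subgroup.subset_closure hx, h x hx⟩
  exact fun x hx => (this hx).2

theorem exists_good [IsFreeGroup F] [Fact p.Prime] [Finite I] (hE : EP j ρ u p ⊤)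
    (Λ : Subgroup F) (hΛ : Λ.FG) (hs : ∀ i, sc j ρ u i ∈ Λ) :
    ∃ Γ : Subgroup F, Γ.FG ∧ Λ ≤ Γ ∧ EP j ρ u p Γ ∧
      ∀ g : F → ZMod p, HmOn Γ g → (∀ x ∈ Λ, g x = 0) → ∀ x ∈ Γ, g x = 0 := by
  classical
  have : Fintype I := Fintype.ofFinite I
  obtain ⟨S, hS⟩ := hΛ
  let X : Finset F := S ∪ Finset.univ.image (fun q : I × I => u q.1 * (u q.2)⁻¹)
  have hSX : ∀ x ∈ S, x ∈ X := fun x hx => Finset.mem_union_left _ hx
  have hSΛ : ∀ x ∈ S, x ∈ Λ := fun x hx => by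
    rw [← hS]; exact Subgroup.subset_closure (Finset.mem_coe.2 hx)
  have hUX : ∀ i i', u i * (u i')⁻¹ ∈ X := fun i i' =>
    Finset.mem_union_right _ (Finset.mem_image.2 ⟨(i, i'), Finset.mem_univ _, rfl⟩)
  have key : ∀ n : ℕ, ∀ Γ : Subgroup F, (X.filter (· ∈ Γ)).card = n → Λ ≤ Γ → EP j ρ u p Γ →
      ∃ Γ : Subgroup F, Γ.FG ∧ Λ ≤ Γ ∧ EP j ρ u p Γ ∧
        ∀ g : F → ZMod p, HmOn Γ g → (∀ x ∈ Λ, g x = 0) → ∀ x ∈ Γ, g x = 0 := by
    intro n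
    induction n using Nat.strong_induction_on with
    | _ n ih =>
      intro Γ hn hΛΓ hEΓ
      let Γ₀ : Subgroup F := Subgroup.closure (X.filter (· ∈ Γ) : Finset F)
      have h1 : Γ₀ ≤ Γ := (Subgroup.closure_le _).2 fun x hx =>
        (Finset.mem_filter.1 (Finset.mem_coe.1 hx)).2
      have h2 : ∀ x ∈ X, x ∈ Γ → x ∈ Γ₀ := fun x hx hx' =>
        Subgroup.subset_closure (Finset.mem_coe.2 (Finset.mem_filter.2 ⟨hx, hx'⟩))
      have h3 : Λ ≤ Γ₀ := by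
        rw [← hS]
        exact (Subgroup.closure_le _).2 fun x hx =>
          h2 x (hSX x (Finset.mem_coe.1 hx)) (hΛΓ (hSΛ x (Finset.mem_coe.1 hx)))
      have h4 : EP j ρ u p Γ₀ := EP_mono h1 (fun i i' h => h2 _ (hUX i i') h) hEΓ
      by_cases hg : ∀ g : F → ZMod p, HmOn Γ₀ g → (∀ x ∈ Λ, g x = 0) → ∀ x ∈ Γ₀, g x = 0
      · exact ⟨Γ₀, ⟨_, rfl⟩, h3, h4, hg⟩
      push Not at hg
      obtain ⟨g, hg, hg0, x, hx, hgx⟩ := hg
      have h5 : Λ ≤ hg.ker := fun y hy => ⟨h3 hy, hg0 y hy⟩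
      refine ih _ ?_ hg.ker rfl h5 (step hg (fun i => h5 (hs i)) h4)
      rw [← hn]
      apply Finset.card_lt_card
      refine ⟨fun y hy => ?_, fun h6 => ?_⟩
      · rw [Finset.mem_filter] at hy ⊢
        exact ⟨hy.1, h1 hy.2.1⟩
      · have h7 : Γ₀ ≤ hg.ker := (Subgroup.closure_le _).2 fun y hy =>
          (Finset.mem_filter.1 (h6 (Finset.mem_coe.1 hy))).2
        exact hgx (h7 hx).2
  exact key _ ⊤ rfl le_top hE

/-- An additive function modulo `p` that vanishes on the relators lifts to an additive function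
with integral values that are divisible by a given power of `p` on the relators. -/
theorem int_lift [IsFreeGroup F] [hp : Fact p.Prime] {Γ : Subgroup F}
    (hs : ∀ i, sc j ρ u i ∈ Γ) (hE : EP j ρ u p Γ) {g : F → ZMod p} (hg : HmOn Γ g)
    (hg0 : ∀ i, g (sc j ρ u i) = 0) (n : ℕ) :
    ∃ G : F → ℤ, HmOn Γ G ∧ (∀ x ∈ Γ, ((G x : ℤ) : ZMod p) = g x) ∧
      ∀ i, (p : ℤ) ^ (n + 1) ∣ G (sc j ρ u i) := by
  induction n with
  | zero =>
    obtain ⟨G, hG, hGg⟩ := lift_int hg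
    refine ⟨G, hG, hGg, fun i => ?_⟩
    rw [zero_add, pow_one, ← ZMod.intCast_zmod_eq_zero_iff_dvd, hGg _ (hs i), hg0]
  | succ n ih =>
    obtain ⟨G, hG, hGg, hd⟩ := ih
    choose B hB using hd
    have hp0 : (p : ℤ) ^ (n + 1) ≠ 0 := pow_ne_zero _ (by exact_mod_cast hp.out.ne_zero)
    obtain ⟨h, hh, hhb⟩ := hE (fun i => (B i : ZMod p)) (by
      intro i i' h1 h2
      have h3 : G (sc j ρ u i) = G (sc j ρ u i') := by
        rw [sc_conj j ρ u h1, hG.conj h2 (hs i')]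
      rw [hB, hB] at h3
      rw [mul_left_cancel₀ hp0 h3])
    obtain ⟨H, hH, hHh⟩ := lift_int hh
    refine ⟨fun x => G x - (p : ℤ) ^ (n + 1) * H x, ?_, ?_, ?_⟩
    · intro x hx y hy
      simp only
      rw [hG x hx y hy, hH x hx y hy]
      ring
    · intro x hx
      push_cast
      rw [hGg x hx]
      simp
    · intro i
      have h4 : (p : ℤ) ∣ B i - H (sc j ρ u i) := by
        rw [← ZMod.intCast_zmod_eq_zero_iff_dvd]
        push_cast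
        rw [hHh _ (hs i), hhb, sub_self]
      obtain ⟨k, hk⟩ := h4
      refine ⟨k, ?_⟩
      simp only
      rw [hB i]
      linear_combination ((p : ℤ) ^ (n + 1)) * hk

/-- The core theorem. -/
theorem core [IsFreeGroup F] [hp : Fact p.Prime] [Finite I] (hE : EP j ρ u p ⊤)
    (Λ : Subgroup F) (hΛ : Λ.FG) (hs : ∀ i, sc j ρ u i ∈ Λ) (m : ℕ) (hm : m ≠ 0)
    (hH : ∀ (G : F → ℤ) (N : ℤ), HmOn Λ G → (∀ i, N ∣ G (sc j ρ u i)) → ∀ x ∈ Λ, N ∣ m * G x) :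
    ∃ Γ : Subgroup F, Γ.FG ∧ Λ ≤ Γ ∧
      ∀ g : F → ZMod p, HmOn Γ g → (∀ i, g (sc j ρ u i) = 0) → ∀ x ∈ Γ, g x = 0 := by
  obtain ⟨Γ, h1, h2, h3, h4⟩ := exists_good hE Λ hΛ hs
  refine ⟨Γ, h1, h2, fun g hg hg0 => h4 g hg fun x hx => ?_⟩
  obtain ⟨G, hG, hGg, hd⟩ := int_lift (fun i => h2 (hs i)) h3 hg hg0 m
  have h5 := hH G _ (hG.mono h2) hd x hx
  rw [← hGg x (h2 hx), ZMod.intCast_zmod_eq_zero_iff_dvd]
  by_contra h6
  have hpz : Prime (p : ℤ) := Nat.prime_iff_prime_int.1 hp.out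
  have h7 : IsCoprime ((p : ℤ) ^ (m + 1)) (G x) :=
    IsCoprime.pow_left ((Irreducible.coprime_iff_not_dvd hpz.irreducible).2 h6)
  have h8 : (p : ℤ) ^ (m + 1) ∣ m := h7.dvd_of_dvd_mul_right h5
  have h9 : p ^ (m + 1) ∣ m := by exact_mod_cast h8
  have h10 := Nat.le_of_dvd (Nat.pos_of_ne_zero hm) h9
  have h11 : m + 1 < p ^ (m + 1) := Nat.lt_pow_self hp.out.one_lt
  omega

end Pool.Agent.W5h69.PT
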