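import Pool.Agent.W5h69.PT.Hull

set_option autoImplicit false

/-!
All primes of a set at the same time: infinite cyclic steps.
-/

namespace Pool.Agent.W5h69.PT

open Function
open scoped commutatorElement

variable {F : Type} [Group F] {I J : Type} {j : I → J} {ρ : J → F} {u : I → F} {p : ℕ}

/-- Independence modulo `p` passes to the subgroups of the elements with value divisible by a
power of `p`. -/
theorem step_pow [IsFreeGroup F] [hp : Fact p.Prime] {Γ : Subgroup F} {c : F → ℤ}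
    (hc : HmOn Γ c) (hs : ∀ i, sc j ρ u i ∈ Γ) (hs0 : ∀ i, c (sc j ρ u i) = 0)
    (hE : EP j ρ u p Γ) (k : ℕ) : EP j ρ u p (hc.dv ((p : ℤ) ^ k)) := by
  induction k with
  | zero =>
    have : hc.dv ((p : ℤ) ^ 0) = Γ := by
      ext x
      exact ⟨fun h => h.1, fun h => ⟨h, by rw [pow_zero]; exact one_dvd _⟩⟩
    rw [this]
    exact hE
  | succ k ih =>
    have hp0 : (p : ℤ) ^ k ≠ 0 := pow_ne_zero _ (by exact_mod_cast hp.out.ne_zero)
    let c' : F → ZMod p := fun x => ((c x / (p : ℤ) ^ k : ℤ) : ZMod p)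
    have hc' : HmOn (hc.dv ((p : ℤ) ^ k)) c' := by
      intro x hx y hy
      simp only [c']
      rw [hc x hx.1 y hy.1, Int.add_ediv_of_dvd_left hx.2]
      push_cast
      ring
    have hker : hc'.ker = hc.dv ((p : ℤ) ^ (k + 1)) := by
      ext x
      constructor
      · rintro ⟨⟨h1, h2⟩, h3⟩
        refine ⟨h1, ?_⟩
        obtain ⟨z, hz⟩ := h2
        have h4 : ((c x / (p : ℤ) ^ k : ℤ) : ZMod p) = 0 := h3
        rw [ZMod.intCast_zmod_eq_zero_iff_dvd, hz, Int.mul_ediv_cancel_left _ hp0] at h4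
        obtain ⟨y, hy⟩ := h4
        exact ⟨y, by rw [hz, hy, pow_succ]; ring⟩
      · rintro ⟨h1, z, hz⟩
        refine ⟨⟨h1, ⟨p * z, by rw [hz, pow_succ]; ring⟩⟩, ?_⟩
        change ((c x / (p : ℤ) ^ k : ℤ) : ZMod p) = 0
        rw [hz, pow_succ, mul_assoc, Int.mul_ediv_cancel_left _ hp0]
        simp
    rw [← hker]
    refine step hc' (fun i => ?_) ih
    rw [hker]
    exact ⟨hs i, by rw [hs0]; exact dvd_zero _⟩

theorem exists_goodZ [IsFreeGroup F] [Finite I] (P : Set ℕ) (hP : ∀ p ∈ P, p.Prime)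
    (hE : ∀ p ∈ P, EP j ρ u p ⊤) (Λ : Subgroup F) (hΛ : Λ.FG) (hs : ∀ i, sc j ρ u i ∈ Λ) :
    ∃ Γ : Subgroup F, Γ.FG ∧ Λ ≤ Γ ∧ (∀ p ∈ P, EP j ρ u p Γ) ∧
      ∀ g : F → ℤ, HmOn Γ g → (∀ x ∈ Λ, g x = 0) → ∀ x ∈ Γ, g x = 0 := by
  classical
  have : Fintype I := Fintype.ofFinite I
  obtain ⟨S, hS⟩ := hΛ
  let X : Finset F := S ∪ Finset.univ.image (fun q : I × I => u q.1 * (u q.2)⁻¹)
  have hSX : ∀ x ∈ S, x ∈ X := fun x hx => Finset.mem_union_left _ hx
  have hSΛ : ∀ x ∈ S, x ∈ Λ := fun x hx => by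
    rw [← hS]; exact Subgroup.subset_closure (Finset.mem_coe.2 hx)
  have hUX : ∀ i i', u i * (u i')⁻¹ ∈ X := fun i i' =>
    Finset.mem_union_right _ (Finset.mem_image.2 ⟨(i, i'), Finset.mem_univ _, rfl⟩)
  have key : ∀ n : ℕ, ∀ Γ : Subgroup F, (X.filter (· ∈ Γ)).card = n → Λ ≤ Γ →
      (∀ p ∈ P, EP j ρ u p Γ) →
      ∃ Γ : Subgroup F, Γ.FG ∧ Λ ≤ Γ ∧ (∀ p ∈ P, EP j ρ u p Γ) ∧
        ∀ g : F → ℤ, HmOn Γ g → (∀ x ∈ Λ, g x = 0) → ∀ x ∈ Γ, g x = 0 := by
    intro n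
    induction n using Nat.strong_induction_on with
    | _ n ih =>
      intro Γ hn hΛΓ hEΓ
      let Γ₀ : Subgroup F := Subgroup.closure (X.filter (· ∈ Γ) : Finset F)
      have h1 : Γ₀ ≤ Γ := (Subgroup.closure_le _).2 fun x hx =>
        (Finset.mem_filter.1 (Finset.mem_coe.1 hx)).2
      have h2 : ∀ x ∈ X, x ∈ Γ → x ∈ Γ₀ := fun x hx hx' =>
        Subgroup.subset_closure (Finset.mem_coe.2 (Finset.mem_filter.2 ⟨hx, hx'⟩))
      have h3 : Λ ≤ Γ₀ := by
        rw [← hS]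
        exact (Subgroup.closure_le _).2 fun x hx =>
          h2 x (hSX x (Finset.mem_coe.1 hx)) (hΛΓ (hSΛ x (Finset.mem_coe.1 hx)))
      have h4 : ∀ p ∈ P, EP j ρ u p Γ₀ := fun p hp =>
        EP_mono h1 (fun i i' h => h2 _ (hUX i i') h) (hEΓ p hp)
      by_cases hg : ∀ g : F → ℤ, HmOn Γ₀ g → (∀ x ∈ Λ, g x = 0) → ∀ x ∈ Γ₀, g x = 0
      · exact ⟨Γ₀, ⟨_, rfl⟩, h3, h4, hg⟩
      push Not at hg
      obtain ⟨g, hg, hg0, x, hx, hgx⟩ := hg
      have h5 : Λ ≤ hg.ker := fun y hy => ⟨h3 hy, hg0 y hy⟩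
      -- the subgroup generated by the elements of `X` in the kernel
      let Γ₁ : Subgroup F := Subgroup.closure (X.filter (· ∈ hg.ker) : Finset F)
      have h6 : Γ₁ ≤ hg.ker := (Subgroup.closure_le _).2 fun x hx =>
        (Finset.mem_filter.1 (Finset.mem_coe.1 hx)).2
      have h7 : ∀ x ∈ X, x ∈ hg.ker → x ∈ Γ₁ := fun x hx hx' =>
        Subgroup.subset_closure (Finset.mem_coe.2 (Finset.mem_filter.2 ⟨hx, hx'⟩))
      have h8 : Λ ≤ Γ₁ := by
        rw [← hS]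
        exact (Subgroup.closure_le _).2 fun x hx =>
          h7 x (hSX x (Finset.mem_coe.1 hx)) (h5 (hSΛ x (Finset.mem_coe.1 hx)))
      have h9 : ∀ p ∈ P, EP j ρ u p Γ₁ := by
        intro p hp
        have : Fact p.Prime := ⟨hP p hp⟩
        let k : ℕ := ∑ y ∈ X, (g y).natAbs
        refine EP_mono (Γ := hg.dv ((p : ℤ) ^ k)) ?_ ?_
          (step_pow hg (fun i => h3 (hs i)) (fun i => hg0 _ (hs i)) (h4 p hp) k)
        · intro y hy
          have := h6 hy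
          exact ⟨this.1, by rw [this.2]; exact dvd_zero _⟩
        · intro i i' h
          refine h7 _ (hUX i i') ⟨h.1, ?_⟩
          have h10 : (g (u i * (u i')⁻¹)).natAbs ≤ k :=
            Finset.single_le_sum (f := fun y => (g y).natAbs) (fun _ _ => Nat.zero_le _)
              (hUX i i')
          have h11 : k < p ^ k := Nat.lt_pow_self (hP p hp).one_lt
          have h12 : p ^ k ∣ (g (u i * (u i')⁻¹)).natAbs := by
            have := Int.natAbs_dvd_natAbs.2 h.2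
            rwa [Int.natAbs_pow, Int.natAbs_natCast] at this
          have h13 : (g (u i * (u i')⁻¹)).natAbs = 0 := by
            by_contra h14
            have := Nat.le_of_dvd (Nat.pos_of_ne_zero h14) h12
            omega
          exact Int.natAbs_eq_zero.1 h13
      refine ih _ ?_ Γ₁ rfl h8 h9
      rw [← hn]
      apply Finset.card_lt_card
      refine ⟨fun y hy => ?_, fun h10 => ?_⟩
      · rw [Finset.mem_filter] at hy ⊢
        exact ⟨hy.1, h1 (h6 hy.2).1⟩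
      · have h11 : Γ₀ ≤ hg.ker := (Subgroup.closure_le _).2 fun y hy =>
          h6 (Finset.mem_filter.1 (h10 (Finset.mem_coe.1 hy))).2
        exact hgx (h11 hx).2
  exact key _ ⊤ rfl le_top hE

/-- An exponent for a finitely generated subgroup. -/
theorem exists_exp' [Finite I] {Γ : Subgroup F} (hΓ : Γ.FG) (hs : ∀ i, sc j ρ u i ∈ Γ)
    (h : ∀ g : F → ℤ, HmOn Γ g → (∀ i, g (sc j ρ u i) = 0) → ∀ x ∈ Γ, g x = 0) :
    ∃ d : ℕ, d ≠ 0 ∧ ∀ (G : F → ℤ) (N : ℤ), HmOn Γ G → (∀ i, N ∣ G (sc j ρ u i)) →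
      ∀ x ∈ Γ, N ∣ d * G x := by
  let R : Set Γ := Set.range fun i => (⟨sc j ρ u i, hs i⟩ : Γ)
  let Q : Type := Γ ⧸ Subgroup.normalClosure R
  let mk : Γ →* Q := QuotientGroup.mk' (Subgroup.normalClosure R)
  have hfg : Group.FG Q := by
    have : Group.FG Γ := (Group.fg_iff_subgroup_fg Γ).2 hΓ
    exact inferInstanceAs (Group.FG (Γ ⧸ Subgroup.normalClosure R))
  have hno : ∀ f : Q →* Multiplicative ℤ, f = 1 := by
    intro f
    have h1 := h (extz (f.comp mk)) (extz_hm _) (fun i => by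
      rw [extz_eq _ (hs i)]
      have h2 : mk ⟨sc j ρ u i, hs i⟩ = 1 :=
        (QuotientGroup.eq_one_iff _).2 (Subgroup.subset_normalClosure ⟨i, rfl⟩)
      rw [MonoidHom.comp_apply, h2, map_one]
      rfl)
    ext x
    have h3 := h1 x.1 x.2
    rw [extz_eq _ x.2] at h3
    exact h3
  obtain ⟨d, hd, hexp⟩ := exists_exp hfg hno
  refine ⟨d, hd, fun G N hG hN x hx => ?_⟩
  have h1 : mk ⟨x, hx⟩ ^ d ∈ (commutator Γ).map mk := by
    have h2 : (commutator Γ).map mk = commutator Q := by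
      rw [commutator_def, Subgroup.map_commutator, commutator_def,
        Subgroup.map_top_of_surjective _ (QuotientGroup.mk'_surjective _)]
    rw [h2]
    exact hexp _
  obtain ⟨κ, hκ, h3⟩ := h1
  have h4 : (⟨x, hx⟩ : Γ) ^ d * κ⁻¹ ∈ Subgroup.normalClosure R := by
    rw [← QuotientGroup.eq_one_iff]
    change mk _ = 1
    rw [map_mul, map_inv, h3, map_pow, mul_inv_cancel]
  -- the values on the normal closure
  let T : Subgroup Γ := (hG.dv N).subgroupOf Γ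
  have hT : T.Normal := by
    refine ⟨fun n hn g => ?_⟩
    have hn' : n.1 ∈ hG.dv N := hn
    change (g * n * g⁻¹ : Γ).1 ∈ hG.dv N
    refine ⟨(g * n * g⁻¹).2, ?_⟩
    have : G ((g * n * g⁻¹ : Γ).1) = G n.1 := hG.conj g.2 n.2
    rw [this]
    exact hn'.2
  have h5 : Subgroup.normalClosure R ≤ T := by
    refine Subgroup.normalClosure_le_normal ?_
    rintro _ ⟨i, rfl⟩
    exact ⟨hs i, hN i⟩
  have h6 : N ∣ G ((x ^ d) * (κ : Γ).1⁻¹) := (h5 h4).2
  have h7 : G κ.1 = 0 := by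
    have h8 : commutator Γ ≤ (hG.ker).subgroupOf Γ := by
      rw [commutator_def, Subgroup.commutator_le]
      intro a _ b _
      refine ⟨(⁅a, b⁆ : Γ).2, ?_⟩
      exact hG.commutator (Subgroup.commutator_mem_commutator a.2 b.2)
    exact (h8 hκ).2
  rw [hG _ (Γ.pow_mem hx d) _ (Γ.inv_mem κ.2), hG.pow hx, hG.inv κ.2, h7, neg_zero, add_zero] at h6
  exact h6

/-- The core theorem for a set of primes. -/
theorem coreZ [IsFreeGroup F] [Finite I] (P : Set ℕ) (hP : ∀ p ∈ P, p.Prime)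
    (hE : ∀ p ∈ P, EP j ρ u p ⊤) (Λ : Subgroup F) (hΛ : Λ.FG) (hs : ∀ i, sc j ρ u i ∈ Λ) (m : ℕ)
    (hm : m ≠ 0)
    (hH : ∀ (G : F → ℤ) (N : ℤ), HmOn Λ G → (∀ i, N ∣ G (sc j ρ u i)) → ∀ x ∈ Λ, N ∣ m * G x) :
    ∃ Γ : Subgroup F, Γ.FG ∧ Λ ≤ Γ ∧
      (∀ g : F → ℤ, HmOn Γ g → (∀ i, g (sc j ρ u i) = 0) → ∀ x ∈ Γ, g x = 0) ∧
      ∀ p ∈ P, ∀ g : F → ZMod p, HmOn Γ g → (∀ i, g (sc j ρ u i) = 0) → ∀ x ∈ Γ, g x = 0 := by
  obtain ⟨Γ, h1, h2, h3, h4⟩ := exists_goodZ P hP hE Λ hΛ hs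
  have hZ : ∀ g : F → ℤ, HmOn Γ g → (∀ i, g (sc j ρ u i) = 0) → ∀ x ∈ Γ, g x = 0 := by
    intro g hg hg0
    refine h4 g hg fun x hx => ?_
    have h5 := hH g 0 (hg.mono h2) (fun i => by rw [hg0]) x hx
    rw [zero_dvd_iff] at h5
    rcases mul_eq_zero.1 h5 with h6 | h6
    · exact absurd (by exact_mod_cast h6) hm
    · exact h6
  refine ⟨Γ, h1, h2, hZ, ?_⟩
  intro p hp g hg hg0 x hx
  obtain ⟨d, hd, hdG⟩ := exists_exp' h1 (fun i => h2 (hs i)) hZ
  have hpp := hP p hp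
  have : Fact p.Prime := ⟨hpp⟩
  obtain ⟨G, hG, hGg, hdv⟩ := int_lift (fun i => h2 (hs i)) (h3 p hp) hg hg0 d
  have h5 := hdG G _ hG hdv x hx
  rw [← hGg x hx, ZMod.intCast_zmod_eq_zero_iff_dvd]
  by_contra h6
  have hpz : Prime (p : ℤ) := Nat.prime_iff_prime_int.1 hpp
  have h7 : IsCoprime ((p : ℤ) ^ (d + 1)) (G x) :=
    IsCoprime.pow_left ((Irreducible.coprime_iff_not_dvd hpz.irreducible).2 h6)
  have h8 : (p : ℤ) ^ (d + 1) ∣ d := h7.dvd_of_dvd_mul_right h5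
  have h9 : p ^ (d + 1) ∣ d := by exact_mod_cast h8
  have h10 := Nat.le_of_dvd (Nat.pos_of_ne_zero hd) h9
  have h11 : d + 1 < p ^ (d + 1) := Nat.lt_pow_self hpp.one_lt
  omega

/-- Let the relators of the group `G` be independent modulo all primes `p ∈ P`.  Every finitely
generated subgroup of `G` without homomorphisms onto `ℤ` lies in a finitely generated subgroup
without nontrivial homomorphisms to `ℤ` and to `ℤ/p`, `p ∈ P`. -/
theorem hullZ {F G J : Type} [Group F] [IsFreeGroup F] [Group G] (P : Set ℕ)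
    (hP : ∀ p ∈ P, p.Prime) (ρ : J → F)
    (hE : ∀ p ∈ P, E0 p ρ) (π : F →* G) (hπ : Surjective π) (hρ : ∀ k, π (ρ k) = 1)
    (hker : ∀ x, π x = 1 → x ∈ Subgroup.normalClosure (Set.range ρ)) (H : Subgroup G)
    (hfg : H.FG) (hH : ∀ f : H →* Multiplicative ℤ, f = 1) :
    ∃ M : Subgroup G, H ≤ M ∧ M.FG ∧ (∀ f : M →* Multiplicative ℤ, f = 1) ∧
      ∀ p ∈ P, ∀ f : M →* Multiplicative (ZMod p), f = 1 := by
  classical
  obtain ⟨S, m, hm, hS, hκ⟩ := pull π hπ H hfg hH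
  choose! κ hκ1 hκ2 using hκ
  have hT : ∀ x ∈ S, ∃ T : Finset (J × F), x ^ m * (κ x)⁻¹ ∈ Subgroup.closure
      ((T : Set (J × F)).image fun q => q.2 * ρ q.1 * q.2⁻¹) := by
    intro x hx
    apply exists_fin
    apply hker
    rw [map_mul, map_inv, hκ2 x hx, map_pow, mul_inv_cancel]
  choose! T hT using hT
  let U : Finset (J × F) := S.biUnion T
  let I : Type := {q // q ∈ U}
  let j : I → J := fun i => i.1.1
  let u : I → F := fun i => i.1.2
  let R : Set F := Set.range (sc j ρ u)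
  have hU : ∀ x ∈ S, x ^ m * (κ x)⁻¹ ∈ Subgroup.closure R := by
    intro x hx
    refine Subgroup.closure_mono ?_ (hT x hx)
    rintro _ ⟨q, hq, rfl⟩
    exact ⟨⟨q, Finset.mem_biUnion.2 ⟨x, hx, Finset.mem_coe.1 hq⟩⟩, rfl⟩
  have hR : R.Finite := Set.finite_range _
  let Λ : Subgroup F := Subgroup.closure ((S : Set F) ∪ R)
  have hΛfg : Λ.FG := by
    rw [Subgroup.fg_iff]
    exact ⟨_, rfl, S.finite_toSet.union hR⟩
  have hSΛ : Subgroup.closure (S : Set F) ≤ Λ := Subgroup.closure_mono Set.subset_union_left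
  have hRΛ : Subgroup.closure R ≤ Λ := Subgroup.closure_mono Set.subset_union_right
  have hs : ∀ i, sc j ρ u i ∈ Λ := fun i => hRΛ (Subgroup.subset_closure ⟨i, rfl⟩)
  obtain ⟨Γ, hΓ1, hΓ2, hΓ3, hΓ4⟩ := coreZ P hP (fun p hp => (hE p hp).ep j u) Λ hΛfg hs m hm (by
    intro g N hg hN x hx
    have h1 : Λ ≤ hg.dv' m N := by
      refine (Subgroup.closure_le _).2 ?_
      rintro x (hx | hx)
      · have hxΛ : x ∈ Λ := hSΛ (Subgroup.subset_closure hx)
        have hκΛ : κ x ∈ Λ := hSΛ ((Subgroup.commutator_le_self _) (hκ1 x (Finset.mem_coe.1 hx)))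
        refine ⟨hxΛ, ?_⟩
        have h2 : Subgroup.closure R ≤ hg.dv N := by
          refine (Subgroup.closure_le _).2 ?_
          rintro _ ⟨i, rfl⟩
          exact ⟨hs i, hN i⟩
        have h3 := (h2 (hU x (Finset.mem_coe.1 hx))).2
        rw [hg _ (Λ.pow_mem hxΛ m) _ (Λ.inv_mem hκΛ), hg.pow hxΛ, hg.inv hκΛ,
          (hg.mono hSΛ).commutator (hκ1 x (Finset.mem_coe.1 hx)), neg_zero, add_zero] at h3
        exact h3
      · obtain ⟨i, rfl⟩ := hx
        exact ⟨hs i, Dvd.dvd.mul_left (hN i) _⟩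
    exact (h1 hx).2)
  have gen : ∀ {A : Type} [AddCommGroup A],
      (∀ g : F → A, HmOn Γ g → (∀ i, g (sc j ρ u i) = 0) → ∀ x ∈ Γ, g x = 0) →
      ∀ f : Γ.map π →* Multiplicative A, f = 1 := by
    intro A _ hA f
    ext x
    obtain ⟨y, rfl⟩ := π.subgroupMap_surjective Γ x
    have h4 := hA (extz (f.comp (π.subgroupMap Γ))) (extz_hm _) (fun i => by
      rw [extz_eq _ (hΓ2 (hs i))]
      have : π.subgroupMap Γ ⟨sc j ρ u i, hΓ2 (hs i)⟩ = 1 := by
        apply Subtype.ext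
        change π (sc j ρ u i) = 1
        unfold sc
        rw [map_mul, map_mul, hρ, map_inv]
        group
      rw [MonoidHom.comp_apply, this, map_one]
      rfl) y.1 y.2
    rw [extz_eq _ y.2] at h4
    exact h4
  refine ⟨Γ.map π, ?_, ?_, gen hΓ3, fun p hp => gen (hΓ4 p hp)⟩
  · rw [← hS]
    exact Subgroup.map_mono (hSΛ.trans hΓ2)
  · obtain ⟨X, hX⟩ := hΓ1
    refine ⟨X.image π, ?_⟩
    rw [Finset.coe_image, ← MonoidHom.map_closure, hX]

end Pool.Agent.W5h69.PT
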