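import Mathlib

set_option autoImplicit false

/-!
Additive functions and crossed homomorphisms on subgroups of free groups, as functions on the
whole group.
-/

namespace Pool.Agent.W5h69.PT

open Function

variable {F : Type} [Group F]

/-- `g` is additive on the subgroup `Γ`. -/
def HmOn {A : Type} [AddCommGroup A] (Γ : Subgroup F) (g : F → A) : Prop :=
  ∀ x ∈ Γ, ∀ y ∈ Γ, g (x * y) = g x + g y

section
variable {A : Type} [AddCommGroup A] {Γ : Subgroup F} {g : F → A}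

lemma HmOn.one (h : HmOn Γ g) : g 1 = 0 := by
  have := h 1 Γ.one_mem 1 Γ.one_mem
  rw [mul_one] at this
  simpa using this

lemma HmOn.inv (h : HmOn Γ g) {x : F} (hx : x ∈ Γ) : g x⁻¹ = -g x := by
  have := h x hx x⁻¹ (Γ.inv_mem hx)
  rw [mul_inv_cancel, h.one] at this
  exact (neg_eq_of_add_eq_zero_right this.symm).symm

lemma HmOn.conj (h : HmOn Γ g) {x y : F} (hx : x ∈ Γ) (hy : y ∈ Γ) : g (x * y * x⁻¹) = g y := by
  rw [h _ (Γ.mul_mem hx hy) _ (Γ.inv_mem hx), h x hx y hy, h.inv hx]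
  abel

lemma HmOn.mono (h : HmOn Γ g) {Γ' : Subgroup F} (hΓ : Γ' ≤ Γ) : HmOn Γ' g :=
  fun x hx y hy => h x (hΓ hx) y (hΓ hy)

/-- The kernel. -/
def HmOn.ker (h : HmOn Γ g) : Subgroup F where
  carrier := {x | x ∈ Γ ∧ g x = 0}
  one_mem' := ⟨Γ.one_mem, h.one⟩
  mul_mem' := fun {a b} ha hb => ⟨Γ.mul_mem ha.1 hb.1, by rw [h a ha.1 b hb.1, ha.2, hb.2, add_zero]⟩
  inv_mem' := fun {a} ha => ⟨Γ.inv_mem ha.1, by rw [h.inv ha.1, ha.2, neg_zero]⟩

lemma HmOn.mem_ker (h : HmOn Γ g) {x : F} : x ∈ h.ker ↔ x ∈ Γ ∧ g x = 0 := Iff.rfl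

lemma HmOn.ker_le (h : HmOn Γ g) : h.ker ≤ Γ := fun _ hx => hx.1

/-- The corresponding homomorphism. -/
def HmOn.hom (h : HmOn Γ g) : Γ →* Multiplicative A where
  toFun x := Multiplicative.ofAdd (g x)
  map_one' := by
    change Multiplicative.ofAdd (g 1) = 1
    rw [h.one]
    rfl
  map_mul' x y := by
    rw [← ofAdd_add, ← h x.1 x.2 y.1 y.2]
    rfl

open Classical in
/-- The extension by zero of a homomorphism on a subgroup. -/
noncomputable def extz (f : Γ →* Multiplicative A) (x : F) : A :=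
  if h : x ∈ Γ then (f ⟨x, h⟩).toAdd else 0

lemma extz_eq (f : Γ →* Multiplicative A) {x : F} (hx : x ∈ Γ) : extz f x = (f ⟨x, hx⟩).toAdd := by
  classical
  exact dif_pos hx

lemma extz_hm (f : Γ →* Multiplicative A) : HmOn Γ (extz f) := by
  intro x hx y hy
  rw [extz_eq f hx, extz_eq f hy, extz_eq f (Γ.mul_mem hx hy), ← toAdd_mul, ← map_mul]
  rfl

end

/-- Lifting homomorphisms of free groups. -/
theorem free_lift {Γ : Type} [Group Γ] [IsFreeGroup Γ] {B Q : Type} [Group B] [Group Q]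
    (π : B →* Q) (hπ : Surjective π) (f : Γ →* Q) : ∃ f' : Γ →* B, ∀ x, π (f' x) = f x := by
  choose σ hσ using hπ
  let f' : Γ →* B := IsFreeGroup.lift fun a => σ (f (IsFreeGroup.of a))
  refine ⟨f', fun x => ?_⟩
  have : π.comp f' = f := by
    apply IsFreeGroup.ext_hom
    intro a
    rw [MonoidHom.comp_apply]
    change π (IsFreeGroup.lift _ (IsFreeGroup.of a)) = _
    rw [IsFreeGroup.lift_of, hσ]
  exact DFunLike.congr_fun this x

/-- An additive function with values modulo `p` on a subgroup of a free group lifts to `ℤ`. -/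
theorem lift_int [IsFreeGroup F] {p : ℕ} {Γ : Subgroup F} {g : F → ZMod p} (hg : HmOn Γ g) :
    ∃ G : F → ℤ, HmOn Γ G ∧ ∀ x ∈ Γ, ((G x : ℤ) : ZMod p) = g x := by
  let π : Multiplicative ℤ →* Multiplicative (ZMod p) :=
    AddMonoidHom.toMultiplicative (Int.castAddHom (ZMod p))
  have hπ : Surjective π := by
    intro x
    obtain ⟨z, hz⟩ := ZMod.intCast_surjective (Multiplicative.toAdd x)
    exact ⟨Multiplicative.ofAdd z, congrArg Multiplicative.ofAdd hz⟩
  obtain ⟨f', hf'⟩ := free_lift π hπ hg.hom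
  refine ⟨extz f', extz_hm f', fun x hx => ?_⟩
  rw [extz_eq f' hx]
  exact congrArg Multiplicative.toAdd (hf' ⟨x, hx⟩)

/-! ### Crossed homomorphisms with values in functions on `ℤ/p` -/

/-- Crossed homomorphisms: `Γ` acts on `ℤ/p → ℤ/p` by translations via `c`. -/
def IsX {p : ℕ} (Γ : Subgroup F) (c : F → ZMod p) (D : F → ZMod p → ZMod p) : Prop :=
  ∀ x ∈ Γ, ∀ y ∈ Γ, ∀ a, D (x * y) a = D x a + D y (a - c x)

section
variable {p : ℕ} {Γ : Subgroup F} {c : F → ZMod p} {D D' : F → ZMod p → ZMod p}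

lemma IsX.one (hc : HmOn Γ c) (h : IsX Γ c D) (a : ZMod p) : D 1 a = 0 := by
  have := h 1 Γ.one_mem 1 Γ.one_mem a
  rw [mul_one, hc.one, sub_zero] at this
  simpa using this

lemma IsX.inv (hc : HmOn Γ c) (h : IsX Γ c D) {x : F} (hx : x ∈ Γ) (a : ZMod p) :
    D x⁻¹ (a - c x) = - D x a := by
  have := h x hx x⁻¹ (Γ.inv_mem hx) a
  rw [mul_inv_cancel, IsX.one hc h] at this
  exact (neg_eq_of_add_eq_zero_right this.symm).symm

/-- values on conjugates of elements of the kernel -/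
lemma IsX.conj (hc : HmOn Γ c) (h : IsX Γ c D) {x s : F} (hx : x ∈ Γ) (hs : s ∈ Γ)
    (hcs : c s = 0) (a : ZMod p) : D (x * s * x⁻¹) a = D s (a - c x) := by
  rw [h _ (Γ.mul_mem hx hs) _ (Γ.inv_mem hx), h x hx s hs, hc x hx s hs, hcs, add_zero,
    IsX.inv hc h hx]
  abel

lemma IsX.zero : IsX Γ c (fun _ _ => (0 : ZMod p)) := fun _ _ _ _ _ => by simp

lemma IsX.add (h : IsX Γ c D) (h' : IsX Γ c D') : IsX Γ c (fun x a => D x a + D' x a) := by
  intro x hx y hy a
  simp only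
  rw [h x hx y hy, h' x hx y hy]
  abel

lemma IsX.neg (h : IsX Γ c D) : IsX Γ c (fun x a => - D x a) := by
  intro x hx y hy a
  simp only
  rw [h x hx y hy]
  abel

lemma IsX.shift (h : IsX Γ c D) : IsX Γ c (fun x a => D x (a - 1)) := by
  intro x hx y hy a
  simp only
  rw [h x hx y hy, sub_right_comm]

/-- The value at `0` is additive on the kernel. -/
lemma IsX.hm (hc : HmOn Γ c) (h : IsX Γ c D) : HmOn hc.ker (fun x => D x 0) := by
  intro x hx y hy
  simp only
  rw [h x hx.1 y hy.1, hx.2, sub_zero]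

end

/-- The group of pairs `(v, a)` with `v : ℤ/p → ℤ/p` and `a ∈ ℤ/p`. -/
@[ext] structure BG (p : ℕ) where
  v : ZMod p → ZMod p
  a : ZMod p

namespace BG
variable {p : ℕ}

instance : Mul (BG p) := ⟨fun x y => ⟨fun k => x.v k + y.v (k - x.a), x.a + y.a⟩⟩
instance : One (BG p) := ⟨⟨fun _ => 0, 0⟩⟩
instance : Inv (BG p) := ⟨fun x => ⟨fun k => - x.v (k + x.a), - x.a⟩⟩

@[simp] lemma mul_v (x y : BG p) (k : ZMod p) : (x * y).v k = x.v k + y.v (k - x.a) := rfl
@[simp] lemma mul_a (x y : BG p) : (x * y).a = x.a + y.a := rfl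
@[simp] lemma one_v (k : ZMod p) : (1 : BG p).v k = 0 := rfl
@[simp] lemma one_a : (1 : BG p).a = 0 := rfl
@[simp] lemma inv_v (x : BG p) (k : ZMod p) : (x⁻¹).v k = - x.v (k + x.a) := rfl
@[simp] lemma inv_a (x : BG p) : (x⁻¹).a = - x.a := rfl

instance : Group (BG p) := Group.ofLeftAxioms
  (fun x y z => by
    ext k
    · simp only [mul_v, mul_a, sub_sub, add_assoc]
    · simp only [mul_a, add_assoc])
  (fun x => by
    ext k
    · simp
    · simp)
  (fun x => by
    ext k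
    · simp
    · simp)

variable [NeZero p]

/-- The sum of the values and the second component. -/
def pr : BG p →* Multiplicative (ZMod p) × Multiplicative (ZMod p) where
  toFun x := (Multiplicative.ofAdd (∑ k, x.v k), Multiplicative.ofAdd x.a)
  map_one' := by
    simp
  map_mul' x y := by
    ext
    · change ∑ k, (x * y).v k = ∑ k, x.v k + ∑ k, y.v k
      simp only [mul_v]
      rw [Finset.sum_add_distrib, ← Equiv.sum_comp (Equiv.subRight x.a) y.v]
      rfl
    · rfl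

lemma pr_surj : Surjective (pr : BG p →* _) := by
  rintro ⟨x, y⟩
  refine ⟨⟨Pi.single 0 x.toAdd, y.toAdd⟩, ?_⟩
  ext
  · change ∑ k, (Pi.single 0 x.toAdd : ZMod p → ZMod p) k = x.toAdd
    simp
  · rfl

end BG

/-- Every additive function on a subgroup of a free group is the sum of the values of a crossed
homomorphism. -/
theorem lift_X [IsFreeGroup F] {p : ℕ} [NeZero p] {Γ : Subgroup F} {c h : F → ZMod p}
    (hc : HmOn Γ c) (hh : HmOn Γ h) :
    ∃ D : F → ZMod p → ZMod p, IsX Γ c D ∧ ∀ x ∈ Γ, ∑ a, D x a = h x := by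
  classical
  obtain ⟨f', hf'⟩ := free_lift BG.pr BG.pr_surj (hh.hom.prod hc.hom)
  have h1 : ∀ x : Γ, ∑ k, (f' x).v k = h x := fun x =>
    congrArg Multiplicative.toAdd (congrArg Prod.fst (hf' x))
  have h2 : ∀ x : Γ, (f' x).a = c x := fun x =>
    congrArg Multiplicative.toAdd (congrArg Prod.snd (hf' x))
  let D : F → ZMod p → ZMod p := fun x => if hx : x ∈ Γ then (f' ⟨x, hx⟩).v else 0
  have hD : ∀ (x : F) (hx : x ∈ Γ), D x = (f' ⟨x, hx⟩).v := fun x hx => dif_pos hx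
  refine ⟨D, ?_, ?_⟩
  · intro x hx y hy a
    rw [hD x hx, hD y hy, hD _ (Γ.mul_mem hx hy), ← h2 ⟨x, hx⟩, ← BG.mul_v, ← map_mul]
    rfl
  · intro x hx
    rw [hD x hx]
    exact h1 ⟨x, hx⟩

end Pool.Agent.W5h69.PT
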