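import Pool.Agent.W5h69.PT.Core

set_option autoImplicit false

/-!
Finitely generated subgroups without homomorphisms onto `ℤ` in groups with independent relators.
-/

namespace Pool.Agent.W5h69.PT

open Function
open scoped commutatorElement

/-! ### Homomorphisms to `ℤ` -/

/-- A nontrivial homomorphism to `ℤ` gives a surjective one. -/
theorem surj_of_ne {H : Type} [Group H] (f : H →* Multiplicative ℤ) (hf : f ≠ 1) :
    ∃ f' : H →* Multiplicative ℤ, Surjective f' := by
  let S : AddSubgroup ℤ := (AddMonoidHom.range (MonoidHom.toAdditiveLeft f))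
  obtain ⟨d, hd⟩ := Int.subgroup_cyclic S
  have hmem : ∀ x : H, ∃ k : ℤ, (f x).toAdd = d * k := by
    intro x
    have : (f x).toAdd ∈ S := ⟨Additive.ofMul x, rfl⟩
    rw [hd, AddSubgroup.mem_closure_singleton] at this
    obtain ⟨k, hk⟩ := this
    exact ⟨k, by rw [← hk, smul_eq_mul, mul_comm]⟩
  choose k hk using hmem
  have hd0 : d ≠ 0 := by
    rintro rfl
    apply hf
    ext x
    change (f x).toAdd = 0
    rw [hk, zero_mul]
  let f' : H →* Multiplicative ℤ :=
    { toFun := fun x => Multiplicative.ofAdd (k x)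
      map_one' := by
        have := hk 1
        rw [map_one, toAdd_one] at this
        have h0 : k 1 = 0 := by
          rcases mul_eq_zero.1 this.symm with h | h
          · exact absurd h hd0
          · exact h
        rw [h0]
        rfl
      map_mul' := fun x y => by
        have := hk (x * y)
        rw [map_mul, toAdd_mul, hk, hk, ← mul_add] at this
        rw [← mul_left_cancel₀ hd0 this]
        rfl }
  refine ⟨f', fun z => ?_⟩
  have hdS : d ∈ S := by
    rw [hd]
    exact AddSubgroup.subset_closure rfl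
  obtain ⟨x, hx⟩ := hdS
  have h1 : d * k (Additive.toMul x) = d := by
    rw [← hk]
    exact hx
  have h2 : k (Additive.toMul x) = 1 := by
    have : d * k (Additive.toMul x) = d * 1 := by rw [h1, mul_one]
    exact mul_left_cancel₀ hd0 this
  refine ⟨(Additive.toMul x) ^ (z.toAdd), ?_⟩
  rw [map_zpow]
  have h3 : f' (Additive.toMul x) = Multiplicative.ofAdd 1 := congrArg Multiplicative.ofAdd h2
  rw [h3, ← ofAdd_zsmul, smul_eq_mul, mul_one, ofAdd_toAdd]

/-- No homomorphisms to `A`, in terms of additive functions. -/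
theorem nohom_iff {G A : Type} [Group G] [AddCommGroup A] (H : Subgroup G) :
    (∀ f : H →* Multiplicative A, f = 1) ↔ ∀ g : G → A, HmOn H g → ∀ x ∈ H, g x = 0 := by
  constructor
  · intro h g hg x hx
    exact congrArg Multiplicative.toAdd (DFunLike.congr_fun (h hg.hom) ⟨x, hx⟩)
  · intro h f
    ext x
    have := h (extz f) (extz_hm f) x.1 x.2
    rw [extz_eq f x.2] at this
    exact this

/-- The exponent of the abelianization. -/
theorem exists_exp {H : Type} [Group H] (hfg : Group.FG H)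
    (hH : ∀ f : H →* Multiplicative ℤ, f = 1) :
    ∃ m : ℕ, m ≠ 0 ∧ ∀ x : H, x ^ m ∈ commutator H := by
  classical
  have h1 : AddGroup.FG (Additive (Abelianization H)) := by
    have : Group.FG (Abelianization H) := inferInstanceAs (Group.FG (H ⧸ commutator H))
    infer_instance
  obtain ⟨n, ι, _, q, hq, e, ⟨φ⟩⟩ :=
    AddCommGroup.equiv_free_prod_directSum_zmod (Additive (Abelianization H))
  have hn : n = 0 := by
    by_contra hn
    let i : Fin n := ⟨0, Nat.pos_of_ne_zero hn⟩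
    let ψ : Additive (Abelianization H) →+ ℤ :=
      (Finsupp.applyAddHom i).comp ((AddMonoidHom.fst _ _).comp φ.toAddMonoidHom)
    let f : H →* Multiplicative ℤ := (AddMonoidHom.toMultiplicativeRight ψ).comp Abelianization.of
    obtain ⟨a, ha⟩ := φ.surjective (Finsupp.single i 1, 0)
    obtain ⟨x, hx⟩ := QuotientGroup.mk_surjective (Additive.toMul a)
    have h2 := congrArg Multiplicative.toAdd (DFunLike.congr_fun (hH f) x)
    have h3 : ψ a = 1 := by
      change (φ a).1 i = 1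
      rw [ha]
      simp
    have h4 : (f x).toAdd = ψ a := by
      change ψ (Additive.ofMul (QuotientGroup.mk x)) = ψ a
      rw [hx]
      rfl
    rw [h4, h3] at h2
    exact one_ne_zero h2
  subst hn
  refine ⟨∏ i, q i ^ e i, Finset.prod_ne_zero_iff.2 fun i _ => pow_ne_zero _ (hq i).ne_zero,
    fun x => ?_⟩
  have h5 : ∀ z : (Fin 0 →₀ ℤ) × DirectSum ι (fun i => ZMod (q i ^ e i)),
      (∏ i, q i ^ e i) • z = 0 := by
    rintro ⟨z1, z2⟩
    ext i
    · exact i.elim0
    · change ((∏ i, q i ^ e i) • z2) i = 0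
      rw [DirectSum.smul_apply]
      obtain ⟨k, hk⟩ : q i ^ e i ∣ ∏ i, q i ^ e i := Finset.dvd_prod_of_mem _ (Finset.mem_univ i)
      rw [hk, mul_comm, mul_smul]
      simp
  have h6 : (∏ i, q i ^ e i) • (Additive.ofMul (Abelianization.of x)) = 0 := by
    apply φ.injective
    rw [map_nsmul, h5, map_zero]
  have h7 : Abelianization.of (x ^ (∏ i, q i ^ e i)) = 1 := by
    rw [map_pow]
    exact congrArg Additive.toMul h6
  have h8 : x ^ (∏ i, q i ^ e i) ∈ (Abelianization.of : H →* Abelianization H).ker := h7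
  rwa [Abelianization.ker_of] at h8

/-- Generators of a finitely generated subgroup without homomorphisms onto `ℤ`, lifted along a
surjection. -/
theorem pull {F G : Type} [Group F] [Group G] (π : F →* G) (hπ : Surjective π) (H : Subgroup G)
    (hfg : H.FG) (hH : ∀ f : H →* Multiplicative ℤ, f = 1) :
    ∃ (S : Finset F) (m : ℕ), m ≠ 0 ∧ (Subgroup.closure (S : Set F)).map π = H ∧
      ∀ x ∈ S, ∃ κ ∈ ⁅Subgroup.closure (S : Set F), Subgroup.closure (S : Set F)⁆,
        π κ = π x ^ m := by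
  classical
  have hfg' : Group.FG H := (Group.fg_iff_subgroup_fg H).2 hfg
  obtain ⟨m, hm, hexp⟩ := exists_exp hfg' hH
  obtain ⟨T, hT⟩ := hfg
  choose l hl using hπ
  let S : Finset F := T.image l
  have hS : (Subgroup.closure (S : Set F)).map π = H := by
    rw [MonoidHom.map_closure, ← hT]
    congr 1
    ext x
    constructor
    · rintro ⟨y, hy, rfl⟩
      obtain ⟨z, hz, rfl⟩ := Finset.mem_image.1 (Finset.mem_coe.1 hy)
      rw [hl]
      exact hz
    · intro hx
      exact ⟨l x, Finset.mem_coe.2 (Finset.mem_image_of_mem _ (Finset.mem_coe.1 hx)), hl x⟩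
  refine ⟨S, m, hm, hS, fun x hx => ?_⟩
  have hxH : π x ∈ H := by
    rw [← hS]
    exact ⟨x, Subgroup.subset_closure (Finset.mem_coe.2 hx), rfl⟩
  have h1 : π x ^ m ∈ ⁅H, H⁆ := by
    have h2 : (⟨π x, hxH⟩ : H) ^ m ∈ commutator H := hexp _
    have h3 : (commutator H).map H.subtype ≤ ⁅H, H⁆ := by
      rw [commutator_def, Subgroup.map_commutator, ← MonoidHom.range_eq_map, Subgroup.range_subtype]
    exact h3 ⟨_, h2, rfl⟩
  rw [← hS, ← Subgroup.map_commutator] at h1
  obtain ⟨κ, hκ, h2⟩ := h1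
  exact ⟨κ, hκ, h2⟩

/-- An element of the normal closure is a product of finitely many conjugates. -/
theorem exists_fin {F J : Type} [Group F] (ρ : J → F) {x : F}
    (hx : x ∈ Subgroup.normalClosure (Set.range ρ)) :
    ∃ T : Finset (J × F), x ∈ Subgroup.closure
      ((T : Set (J × F)).image fun q => q.2 * ρ q.1 * q.2⁻¹) := by
  classical
  unfold Subgroup.normalClosure at hx
  induction hx using Subgroup.closure_induction with
  | mem x hx =>
    obtain ⟨y, ⟨k, rfl⟩, hxy⟩ := Group.mem_conjugatesOfSet_iff.1 hx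
    obtain ⟨c, rfl⟩ := isConj_iff.1 hxy
    exact ⟨{(k, c)}, Subgroup.subset_closure ⟨(k, c), by simp, rfl⟩⟩
  | one => exact ⟨∅, Subgroup.one_mem _⟩
  | mul x y _ _ hx hy =>
    obtain ⟨T, hT⟩ := hx
    obtain ⟨T', hT'⟩ := hy
    refine ⟨T ∪ T', Subgroup.mul_mem _ ?_ ?_⟩
    · exact Subgroup.closure_mono (Set.image_mono (by
        rw [Finset.coe_union]; exact Set.subset_union_left)) hT
    · exact Subgroup.closure_mono (Set.image_mono (by
        rw [Finset.coe_union]; exact Set.subset_union_right)) hT'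
  | inv x _ hx =>
    obtain ⟨T, hT⟩ := hx
    exact ⟨T, Subgroup.inv_mem _ hT⟩

section
variable {F : Type} [Group F] {Γ : Subgroup F} {g : F → ℤ}

lemma HmOn.pow (hg : HmOn Γ g) {x : F} (hx : x ∈ Γ) (m : ℕ) : g (x ^ m) = m * g x := by
  induction m with
  | zero => simp [hg.one]
  | succ m ih =>
    rw [pow_succ, hg _ (Γ.pow_mem hx m) x hx, ih]
    push_cast
    ring

lemma HmOn.commutator {A : Type} [AddCommGroup A] {g : F → A} (hg : HmOn Γ g) {x : F}
    (hx : x ∈ ⁅Γ, Γ⁆) : g x = 0 := by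
  have h : ⁅Γ, Γ⁆ ≤ hg.ker := by
    rw [Subgroup.commutator_le]
    intro a ha b hb
    have hc : ⁅a, b⁆ = (a * b * a⁻¹) * b⁻¹ := rfl
    refine ⟨?_, ?_⟩
    · rw [hc]
      exact Γ.mul_mem (Γ.mul_mem (Γ.mul_mem ha hb) (Γ.inv_mem ha)) (Γ.inv_mem hb)
    · rw [hc, hg _ (Γ.mul_mem (Γ.mul_mem ha hb) (Γ.inv_mem ha)) _ (Γ.inv_mem hb), hg.conj ha hb,
        hg.inv hb, add_neg_cancel]
  exact (h hx).2

/-- The subgroup of the elements with values divisible by `N`. -/
def HmOn.dv (hg : HmOn Γ g) (N : ℤ) : Subgroup F where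
  carrier := {x | x ∈ Γ ∧ N ∣ g x}
  one_mem' := ⟨Γ.one_mem, by rw [hg.one]; exact dvd_zero N⟩
  mul_mem' := fun {a b} ha hb => ⟨Γ.mul_mem ha.1 hb.1, by
    rw [hg a ha.1 b hb.1]; exact dvd_add ha.2 hb.2⟩
  inv_mem' := fun {a} ha => ⟨Γ.inv_mem ha.1, by rw [hg.inv ha.1]; exact ha.2.neg_right⟩

/-- The subgroup of the elements with values divisible by `N` after multiplication by `m`. -/
def HmOn.dv' (hg : HmOn Γ g) (m N : ℤ) : Subgroup F where
  carrier := {x | x ∈ Γ ∧ N ∣ m * g x}
  one_mem' := ⟨Γ.one_mem, by rw [hg.one, mul_zero]; exact dvd_zero N⟩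
  mul_mem' := fun {a b} ha hb => ⟨Γ.mul_mem ha.1 hb.1, by
    rw [hg a ha.1 b hb.1, mul_add]; exact dvd_add ha.2 hb.2⟩
  inv_mem' := fun {a} ha => ⟨Γ.inv_mem ha.1, by
    rw [hg.inv ha.1, mul_neg]; exact ha.2.neg_right⟩

end

/-- The relators are independent modulo `p`. -/
def E0 {F J : Type} [Group F] (p : ℕ) (ρ : J → F) : Prop :=
  ∀ β : J → ZMod p, ∃ g : F → ZMod p, HmOn (⊤ : Subgroup F) g ∧ ∀ k, g (ρ k) = β k

lemma E0.ep {F I J : Type} [Group F] {p : ℕ} {ρ : J → F} (h : E0 p ρ) (j : I → J) (u : I → F) :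
    EP j ρ u p ⊤ := by
  classical
  intro b hb
  obtain ⟨g, hg, hgb⟩ := h fun k => if h : ∃ i, j i = k then b h.choose else 0
  refine ⟨g, hg, fun i => ?_⟩
  unfold sc
  rw [hg.conj (Subgroup.mem_top _) (Subgroup.mem_top _), hgb]
  have h1 : ∃ i', j i' = j i := ⟨i, rfl⟩
  rw [dif_pos h1]
  exact hb _ _ h1.choose_spec (Subgroup.mem_top _)

/-- Let the relators of the group `G` be independent modulo `p`.  Every finitely generated subgroup
of `G` without homomorphisms onto `ℤ` lies in a finitely generated subgroup without nontrivial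
homomorphisms to `ℤ/p`. -/
theorem hull {F G J : Type} [Group F] [IsFreeGroup F] [Group G] {p : ℕ} [Fact p.Prime] (ρ : J → F)
    (hE : E0 p ρ) (π : F →* G) (hπ : Surjective π) (hρ : ∀ k, π (ρ k) = 1)
    (hker : ∀ x, π x = 1 → x ∈ Subgroup.normalClosure (Set.range ρ)) (H : Subgroup G)
    (hfg : H.FG) (hH : ∀ f : H →* Multiplicative ℤ, f = 1) :
    ∃ M : Subgroup G, H ≤ M ∧ M.FG ∧ ∀ f : M →* Multiplicative (ZMod p), f = 1 := by
  classical
  obtain ⟨S, m, hm, hS, hκ⟩ := pull π hπ H hfg hH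
  choose! κ hκ1 hκ2 using hκ
  have hT : ∀ x ∈ S, ∃ T : Finset (J × F), x ^ m * (κ x)⁻¹ ∈ Subgroup.closure
      ((T : Set (J × F)).image fun q => q.2 * ρ q.1 * q.2⁻¹) := by
    intro x hx
    apply exists_fin
    apply hker
    rw [map_mul, map_inv, hκ2 x hx, map_pow, mul_inv_cancel]
  choose! T hT using hT
  let U : Finset (J × F) := S.biUnion T
  let I : Type := {q // q ∈ U}
  let j : I → J := fun i => i.1.1
  let u : I → F := fun i => i.1.2
  let R : Set F := Set.range (sc j ρ u)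
  have hU : ∀ x ∈ S, x ^ m * (κ x)⁻¹ ∈ Subgroup.closure R := by
    intro x hx
    refine Subgroup.closure_mono ?_ (hT x hx)
    rintro _ ⟨q, hq, rfl⟩
    exact ⟨⟨q, Finset.mem_biUnion.2 ⟨x, hx, Finset.mem_coe.1 hq⟩⟩, rfl⟩
  have hR : R.Finite := Set.finite_range _
  let Λ : Subgroup F := Subgroup.closure ((S : Set F) ∪ R)
  have hΛfg : Λ.FG := by
    rw [Subgroup.fg_iff]
    exact ⟨_, rfl, S.finite_toSet.union hR⟩
  have hSΛ : Subgroup.closure (S : Set F) ≤ Λ := Subgroup.closure_mono Set.subset_union_left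
  have hRΛ : Subgroup.closure R ≤ Λ := Subgroup.closure_mono Set.subset_union_right
  have hs : ∀ i, sc j ρ u i ∈ Λ := fun i => hRΛ (Subgroup.subset_closure ⟨i, rfl⟩)
  obtain ⟨Γ, hΓ1, hΓ2, hΓ3⟩ := core (p := p) (hE.ep j u) Λ hΛfg hs m hm (by
    intro g N hg hN x hx
    have h1 : Λ ≤ hg.dv' m N := by
      refine (Subgroup.closure_le _).2 ?_
      rintro x (hx | hx)
      · have hxΛ : x ∈ Λ := hSΛ (Subgroup.subset_closure hx)
        have hκΛ : κ x ∈ Λ := hSΛ ((Subgroup.commutator_le_self _) (hκ1 x (Finset.mem_coe.1 hx)))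
        refine ⟨hxΛ, ?_⟩
        have h2 : Subgroup.closure R ≤ hg.dv N := by
          refine (Subgroup.closure_le _).2 ?_
          rintro _ ⟨i, rfl⟩
          exact ⟨hs i, hN i⟩
        have h3 := (h2 (hU x (Finset.mem_coe.1 hx))).2
        rw [hg _ (Λ.pow_mem hxΛ m) _ (Λ.inv_mem hκΛ), hg.pow hxΛ, hg.inv hκΛ,
          (hg.mono hSΛ).commutator (hκ1 x (Finset.mem_coe.1 hx)), neg_zero, add_zero] at h3
        exact h3
      · obtain ⟨i, rfl⟩ := hx
        exact ⟨hs i, Dvd.dvd.mul_left (hN i) _⟩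
    exact (h1 hx).2)
  refine ⟨Γ.map π, ?_, ?_, ?_⟩
  · rw [← hS]
    exact Subgroup.map_mono (hSΛ.trans hΓ2)
  · obtain ⟨X, hX⟩ := hΓ1
    refine ⟨X.image π, ?_⟩
    rw [Finset.coe_image, ← MonoidHom.map_closure, hX]
  · intro f
    ext x
    obtain ⟨y, rfl⟩ := π.subgroupMap_surjective Γ x
    have h4 := hΓ3 (extz (f.comp (π.subgroupMap Γ))) (extz_hm _) (fun i => by
      rw [extz_eq _ (hΓ2 (hs i))]
      have : π.subgroupMap Γ ⟨sc j ρ u i, hΓ2 (hs i)⟩ = 1 := by
        apply Subtype.ext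
        change π (sc j ρ u i) = 1
        unfold sc
        rw [map_mul, map_mul, hρ, map_inv]
        group
      rw [MonoidHom.comp_apply, this, map_one]
      rfl) y.1 y.2
    rw [extz_eq _ y.2] at h4
    exact h4

end Pool.Agent.W5h69.PT
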