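import Pool.Agent.W5h69.PT.CoreZ
import Pool.Agent.R655.LI.Test

set_option autoImplicit false

/-!
Locally indicable and locally `p`-indicable quotients.
-/

namespace Pool.Agent.W5h69.PT

open Function
open scoped commutatorElement
open Pool.Agent.R655.LI (Cx Sub LocInd PInd NN Perf NGen OneCell Question Reduced HasHom fg_map clk)

/-- `M` is finitely generated and has no nontrivial homomorphism to `ℤ` and to `ℤ/p`, `p ∈ P`. -/
def PP (P : Set ℕ) {G : Type} [Group G] (M : Subgroup G) : Prop :=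
  M.FG ∧ (∀ f : M →* Multiplicative ℤ, f = 1) ∧
    ∀ p ∈ P, ∀ f : M →* Multiplicative (ZMod p), f = 1

/-- `H` is finitely generated and has no nontrivial homomorphism to `ℤ`. -/
def PZ {G : Type} [Group G] (H : Subgroup G) : Prop :=
  H.FG ∧ ∀ f : H →* Multiplicative ℤ, f = 1

section
variable {G : Type} [Group G] {P : Set ℕ}

lemma fg_sup {M M' : Subgroup G} (h : M.FG) (h' : M'.FG) : (M ⊔ M').FG := by
  classical
  obtain ⟨S, hS⟩ := h
  obtain ⟨S', hS'⟩ := h'
  exact ⟨S ∪ S', by rw [Finset.coe_union, Subgroup.closure_union, hS, hS']⟩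

lemma zero_sup {A : Type} [AddCommGroup A] {M M' : Subgroup G} {g : G → A} (hg : HmOn (M ⊔ M') g)
    (h : ∀ x ∈ M, g x = 0) (h' : ∀ x ∈ M', g x = 0) : ∀ x ∈ M ⊔ M', g x = 0 := by
  have : M ⊔ M' ≤ hg.ker := sup_le (fun x hx => ⟨le_sup_left (b := M') hx, h x hx⟩)
    (fun x hx => ⟨le_sup_right (a := M) hx, h' x hx⟩)
  exact fun x hx => (this hx).2

lemma nohom_sup {A : Type} [AddCommGroup A] {M M' : Subgroup G}
    (h : ∀ f : M →* Multiplicative A, f = 1) (h' : ∀ f : M' →* Multiplicative A, f = 1) :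
    ∀ f : (M ⊔ M' : Subgroup G) →* Multiplicative A, f = 1 := by
  rw [nohom_iff]
  intro g hg
  exact zero_sup hg ((nohom_iff M).1 h g (hg.mono le_sup_left))
    ((nohom_iff M').1 h' g (hg.mono le_sup_right))

lemma nohom_map {A G' : Type} [AddCommGroup A] [Group G'] {M : Subgroup G}
    (h : ∀ f : M →* Multiplicative A, f = 1) (φ : G →* G') :
    ∀ f : M.map φ →* Multiplicative A, f = 1 := by
  intro f
  have h1 := h (f.comp (φ.subgroupMap M))
  ext x
  obtain ⟨y, rfl⟩ := φ.subgroupMap_surjective M x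
  exact DFunLike.congr_fun h1 y

lemma PP.sup {M M' : Subgroup G} (h : PP P M) (h' : PP P M') : PP P (M ⊔ M') :=
  ⟨fg_sup h.1 h'.1, nohom_sup h.2.1 h'.2.1, fun p hp => nohom_sup (h.2.2 p hp) (h'.2.2 p hp)⟩

lemma PP.map {G' : Type} [Group G'] {M : Subgroup G} (h : PP P M) (φ : G →* G') :
    PP P (M.map φ) :=
  ⟨fg_map φ h.1, nohom_map h.2.1 φ, fun p hp => nohom_map (h.2.2 p hp) φ⟩

lemma PP.pz {M : Subgroup G} (h : PP P M) : PZ M := ⟨h.1, h.2.1⟩

/-- The union of the finitely generated subgroups without nontrivial homomorphisms to `ℤ` and to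
`ℤ/p`, `p ∈ P`. -/
def rad (P : Set ℕ) (G : Type) [Group G] : Subgroup G where
  carrier := {x | ∃ M : Subgroup G, PP P M ∧ x ∈ M}
  one_mem' := by
    have h : ∀ {A : Type} [AddCommGroup A] (f : (⊥ : Subgroup G) →* Multiplicative A), f = 1 := by
      intro A _ f
      ext x
      have : x = 1 := Subtype.ext (Subgroup.mem_bot.1 x.2)
      rw [this, map_one, MonoidHom.one_apply]
    exact ⟨⊥, ⟨⟨∅, by simp⟩, h, fun p _ => h⟩, Subgroup.one_mem _⟩
  mul_mem' := by
    rintro a b ⟨M, hM, ha⟩ ⟨M', hM', hb⟩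
    exact ⟨M ⊔ M', hM.sup hM', Subgroup.mul_mem _ (le_sup_left (b := M') ha)
      (le_sup_right (a := M) hb)⟩
  inv_mem' := by
    rintro a ⟨M, hM, ha⟩
    exact ⟨M, hM, M.inv_mem ha⟩

lemma mem_rad {x : G} : x ∈ rad P G ↔ ∃ M : Subgroup G, PP P M ∧ x ∈ M := Iff.rfl

instance rad_normal : (rad P G).Normal := by
  refine ⟨?_⟩
  rintro x ⟨M, hM, hx⟩ g
  exact ⟨M.map (MulAut.conj g).toMonoidHom, hM.map _, ⟨x, hx, rfl⟩⟩

lemma PP.le_rad {M : Subgroup G} (h : PP P M) : M ≤ rad P G := fun _ hx => ⟨M, h, hx⟩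

/-- a finite family of elements of the radical -/
lemma exists_PP {ι : Type} (S : Finset ι) (b : ι → G) (hb : ∀ x ∈ S, b x ∈ rad P G) :
    ∃ M : Subgroup G, PP P M ∧ ∀ x ∈ S, b x ∈ M := by
  classical
  induction S using Finset.induction_on with
  | empty =>
    obtain ⟨M, hM, _⟩ := (rad P G).one_mem
    exact ⟨M, hM, fun x hx => absurd hx (Finset.notMem_empty _)⟩
  | insert a S _ ih =>
    obtain ⟨M, hM, h⟩ := ih fun x hx => hb x (Finset.mem_insert_of_mem hx)
    obtain ⟨M', hM', h'⟩ := hb a (Finset.mem_insert_self _ _)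
    refine ⟨M ⊔ M', hM.sup hM', fun x hx => ?_⟩
    rcases Finset.mem_insert.1 hx with rfl | hx
    · exact le_sup_right (a := M) h'
    · exact le_sup_left (b := M') (h x hx)

/-- Finitely generated subgroups without homomorphisms onto `ℤ` lie in finitely generated subgroups
without nontrivial homomorphisms to `ℤ` and to `ℤ/p`, `p ∈ P`. -/
def Hull (P : Set ℕ) (G : Type) [Group G] : Prop :=
  ∀ H : Subgroup G, PZ H → ∃ M : Subgroup G, H ≤ M ∧ PP P M

lemma Hull.le_rad (h : Hull P G) {H : Subgroup G} (hH : PZ H) : H ≤ rad P G := by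
  obtain ⟨M, h1, h2⟩ := h H hH
  exact h1.trans h2.le_rad

/-- no homomorphism onto `ℤ` -/
lemma pz_of {H : Subgroup G} (hfg : H.FG)
    (h : ¬ ∃ f : H →* Multiplicative ℤ, Surjective f) : PZ H := by
  refine ⟨hfg, fun f => ?_⟩
  by_contra hf
  exact h (surj_of_ne f hf)

/-- The quotient by the radical is locally indicable. -/
theorem quot_locInd (h : Hull P G) : LocInd (G ⧸ rad P G) := by
  intro H hfg hH
  by_contra hs
  obtain ⟨S, m, hm, hS, hκ⟩ := pull (QuotientGroup.mk' (rad P G))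
    (QuotientGroup.mk'_surjective _) H hfg (pz_of hfg hs).2
  choose! κ hκ1 hκ2 using hκ
  obtain ⟨M, hM, hb⟩ := exists_PP (P := P) S (fun x => x ^ m * (κ x)⁻¹) (by
    intro x hx
    rw [← QuotientGroup.eq_one_iff]
    change QuotientGroup.mk' (rad P G) _ = 1
    rw [map_mul, map_inv, hκ2 x hx, map_pow, mul_inv_cancel])
  let K : Subgroup G := Subgroup.closure (S : Set G) ⊔ M
  have hK : PZ K := by
    refine ⟨fg_sup ⟨S, rfl⟩ hM.1, ?_⟩
    rw [nohom_iff]
    intro g hg
    have hgM : ∀ x ∈ M, g x = 0 := (nohom_iff M).1 hM.2.1 g (hg.mono le_sup_right)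
    have hg' := hg.mono (le_sup_left : Subgroup.closure (S : Set G) ≤ K)
    refine zero_sup hg (HmOn.zero_of_closure hg' ?_) hgM
    intro x hx
    have hx1 : x ∈ Subgroup.closure (S : Set G) := Subgroup.subset_closure hx
    have hx' : x ∈ K := le_sup_left (b := M) hx1
    have h1 : g (κ x) = 0 := hg'.commutator (hκ1 x (Finset.mem_coe.1 hx))
    have hκK : κ x ∈ K := le_sup_left (b := M)
      ((Subgroup.commutator_le_self _) (hκ1 x (Finset.mem_coe.1 hx)))
    have h2 := hgM _ (hb x (Finset.mem_coe.1 hx))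
    rw [hg _ (K.pow_mem hx' m) _ (K.inv_mem hκK), hg.pow hx', hg.inv hκK, h1, neg_zero,
      add_zero] at h2
    rcases mul_eq_zero.1 h2 with h3 | h3
    · exact absurd (by exact_mod_cast h3) hm
    · exact h3
  apply hH
  rw [← hS, eq_bot_iff, Subgroup.map_le_iff_le_comap]
  intro x hx
  have h4 : x ∈ rad P G := h.le_rad hK (le_sup_left (b := M) hx)
  rw [Subgroup.mem_comap, Subgroup.mem_bot]
  exact (QuotientGroup.eq_one_iff x).2 h4

/-- Locally indicable groups are locally `p`-indicable. -/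
theorem LocInd.pind {p : ℕ} (hp : p ≠ 1) (h : LocInd G) : PInd p G := by
  intro H hfg hH
  obtain ⟨f, hf⟩ := h H hfg hH
  let q : Multiplicative ℤ →* Multiplicative (ZMod p) :=
    AddMonoidHom.toMultiplicative (Int.castAddHom (ZMod p))
  refine ⟨q.comp f, fun h1 => ?_⟩
  obtain ⟨x, hx⟩ := hf (Multiplicative.ofAdd 1)
  have h2 := congrArg Multiplicative.toAdd (DFunLike.congr_fun h1 x)
  rw [MonoidHom.comp_apply, hx] at h2
  have h3 : ((1 : ℤ) : ZMod p) = 0 := h2
  rw [Int.cast_one] at h3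
  rcases Nat.lt_or_gt_of_ne hp with h4 | h4
  · have : p = 0 := by omega
    subst this
    exact one_ne_zero h3
  · have : Fact (1 < p) := ⟨h4⟩
    exact one_ne_zero h3

/-- `x` is killed by all homomorphisms to locally indicable groups. -/
def KillZ (x : G) : Prop :=
  ∀ (A : Type) [Group A], LocInd A → ∀ f : G →* A, f x = 1

/-- `x` is killed by all homomorphisms to locally `p`-indicable groups. -/
def KillP (p : ℕ) (x : G) : Prop :=
  ∀ (A : Type) [Group A], PInd p A → ∀ f : G →* A, f x = 1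

lemma killP_of_mem {x : G} (hx : x ∈ rad P G) {p : ℕ} (hp : p ∈ P) : KillP p x := by
  intro A _ hA f
  obtain ⟨M, hM, hx⟩ := hx
  by_contra hf
  obtain ⟨g, hg⟩ := hA (M.map f) (hM.map f).1 (by
    intro hb
    have : f x ∈ M.map f := ⟨x, hx, rfl⟩
    rw [hb, Subgroup.mem_bot] at this
    exact hf this)
  exact hg ((hM.map f).2.2 p hp g)

/-- The descriptions of the radical. -/
theorem rad_tfae (hP : ∀ p ∈ P, p.Prime) (h : Hull P G) (x : G) :
    (KillZ x ↔ ∃ M : Subgroup G, PP P M ∧ x ∈ M) ∧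
    ((∃ M : Subgroup G, PP P M ∧ x ∈ M) ↔ ∃ H : Subgroup G, PZ H ∧ x ∈ H) ∧
    ∀ p ∈ P, (KillZ x ↔ KillP p x) := by
  have h13 : KillZ x → ∃ M : Subgroup G, PP P M ∧ x ∈ M := fun hx =>
    mem_rad.1 ((QuotientGroup.eq_one_iff x).1
      (hx (G ⧸ rad P G) (quot_locInd h) (QuotientGroup.mk' (rad P G))))
  have h41 : (∃ H : Subgroup G, PZ H ∧ x ∈ H) → KillZ x := by
    rintro ⟨H, hH, hx⟩ A _ hA f
    by_contra hf
    obtain ⟨g, hg⟩ := hA (H.map f) (fg_map f hH.1) (by
      intro hb
      have : f x ∈ H.map f := ⟨x, hx, rfl⟩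
      rw [hb, Subgroup.mem_bot] at this
      exact hf this)
    have h1 := nohom_map hH.2 f g
    obtain ⟨y, hy⟩ := hg (Multiplicative.ofAdd 1)
    rw [h1] at hy
    have h2 : (0 : ℤ) = 1 := congrArg Multiplicative.toAdd hy
    exact zero_ne_one h2
  have h34 : (∃ M : Subgroup G, PP P M ∧ x ∈ M) → ∃ H : Subgroup G, PZ H ∧ x ∈ H :=
    fun ⟨M, hM, hx⟩ => ⟨M, hM.pz, hx⟩
  refine ⟨⟨h13, fun hx => h41 (h34 hx)⟩, ⟨h34, fun hx => h13 (h41 hx)⟩, fun p hp =>
    ⟨fun hx => killP_of_mem (mem_rad.2 (h13 hx)) hp, fun hx A _ hA f =>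
      hx A (LocInd.pind (hP p hp).ne_one hA) f⟩⟩

theorem locInd_iff {p : ℕ} (hp : p ≠ 1) (h : Hull {p} G) : LocInd G ↔ PInd p G := by
  refine ⟨LocInd.pind hp, fun hG H hfg hH => ?_⟩
  by_contra hs
  obtain ⟨M, h1, h2⟩ := h H (pz_of hfg hs)
  have hM : M ≠ ⊥ := by
    rintro rfl
    exact hH (le_bot_iff.1 h1)
  obtain ⟨f, hf⟩ := hG M h2.1 hM
  exact hf (h2.2.2 p rfl f)

/-- Finitely generated groups without homomorphisms to the groups of prime order are perfect. -/
theorem perfect_of {M : Subgroup G} (hfg : M.FG)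
    (h : ∀ p : ℕ, p.Prime → ∀ f : M →* Multiplicative (ZMod p), f = 1) : ⁅M, M⁆ = M := by
  classical
  have hfg' : Group.FG M := (Group.fg_iff_subgroup_fg M).2 hfg
  have h1 : AddGroup.FG (Additive (Abelianization M)) := by
    have : Group.FG (Abelianization M) := inferInstanceAs (Group.FG (M ⧸ commutator M))
    infer_instance
  obtain ⟨n, ι, _, q, hq, e, ⟨φ⟩⟩ :=
    AddCommGroup.equiv_free_prod_directSum_zmod (Additive (Abelianization M))
  -- no homomorphism from the abelianization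
  have hno : ∀ p : ℕ, p.Prime → ∀ ψ : Additive (Abelianization M) →+ ZMod p, ψ = 0 := by
    intro p hp ψ
    ext a
    exact congrArg Multiplicative.toAdd (DFunLike.congr_fun
      (h p hp ((AddMonoidHom.toMultiplicativeRight ψ).comp Abelianization.of)) a)
  have hn : n = 0 := by
    by_contra hn
    let i : Fin n := ⟨0, Nat.pos_of_ne_zero hn⟩
    let ψ : Additive (Abelianization M) →+ ZMod 2 :=
      (Int.castAddHom (ZMod 2)).comp
        ((Finsupp.applyAddHom i).comp ((AddMonoidHom.fst _ _).comp φ.toAddMonoidHom))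
    obtain ⟨a, ha⟩ := φ.surjective (Finsupp.single i 1, 0)
    have h3 : ψ a = 1 := by
      change (((φ a).1 i : ℤ) : ZMod 2) = 1
      rw [ha]
      simp
    rw [hno 2 Nat.prime_two ψ] at h3
    exact zero_ne_one h3
  subst hn
  have he : ∀ i, e i = 0 := by
    intro i
    by_contra hi
    have : Fact (q i).Prime := ⟨hq i⟩
    let ψ : Additive (Abelianization M) →+ ZMod (q i) :=
      (ZMod.castHom (dvd_pow_self (q i) hi) (ZMod (q i))).toAddMonoidHom.comp
        ((DFinsupp.evalAddMonoidHom i).comp ((AddMonoidHom.snd _ _).comp φ.toAddMonoidHom))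
    obtain ⟨a, ha⟩ := φ.surjective (0, DirectSum.of _ i 1)
    have h3 : ψ a = 1 := by
      change ZMod.castHom (dvd_pow_self (q i) hi) (ZMod (q i)) ((φ a).2 i) = 1
      rw [ha]
      have : (DirectSum.of (fun i => ZMod (q i ^ e i)) i 1) i = 1 := DirectSum.of_eq_same _ _
      rw [this, map_one]
    rw [hno _ (hq i) ψ] at h3
    exact zero_ne_one h3
  have h5 : ∀ a : Additive (Abelianization M), a = 0 := by
    intro a
    apply φ.injective
    rw [map_zero]
    ext i
    · exact i.elim0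
    · have : Subsingleton (ZMod (q i ^ e i)) := by
        rw [he i, pow_zero]
        infer_instance
      exact Subsingleton.elim _ _
  have h6 : commutator M = ⊤ := by
    rw [eq_top_iff]
    intro x _
    have : x ∈ (Abelianization.of : M →* Abelianization M).ker := h5 (Additive.ofMul (Abelianization.of x))
    rwa [Abelianization.ker_of] at this
  have h7 := congrArg (Subgroup.map M.subtype) h6
  rwa [commutator_def, Subgroup.map_commutator, ← MonoidHom.range_eq_map, Subgroup.range_subtype]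
    at h7

lemma nohom_of_perfect {A : Type} [AddCommGroup A] {M : Subgroup G} (h : ⁅M, M⁆ = M) :
    ∀ f : M →* Multiplicative A, f = 1 := by
  rw [nohom_iff]
  intro g hg x hx
  rw [← h] at hx
  exact hg.commutator hx

end

/-! ### Complexes -/

/-- `H₂(K; ℤ/p) = 0`: the rows of the boundary operator modulo `p` are independent. -/
def H2Zero (p : ℕ) (K : Cx) : Prop :=
  LinearIndependent (ZMod p) (fun j : K.R => clk (ZMod p) K (K.r j))

section
variable {K L : Cx} {p : ℕ}

lemma clk_add (K : Cx) (x y : FreeGroup K.V) :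
    clk (ZMod p) K (x * y) = clk (ZMod p) K x + clk (ZMod p) K y := by
  funext v
  simp [clk]

lemma e0_of [Fact p.Prime] (h : H2Zero p K) : E0 p K.r := by
  intro β
  obtain ⟨φ, hφ⟩ : ∃ φ : (K.V → ZMod p) →ₗ[ZMod p] ZMod p, ∀ k, φ (clk (ZMod p) K (K.r k)) = β k := by
    let b := Module.Basis.span h
    obtain ⟨φ, hφ⟩ := LinearMap.exists_extend (b.constr (ZMod p) β)
    refine ⟨φ, fun k => ?_⟩
    have h1 := b.constr_basis (ZMod p) β k
    rw [← hφ, LinearMap.comp_apply] at h1
    rw [← h1]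
    congr 1
    exact (congrArg Subtype.val (Module.Basis.span_apply h k)).symm
  refine ⟨fun w => φ (clk (ZMod p) K w), fun x _ y _ => ?_, hφ⟩
  simp only
  rw [clk_add, map_add]

theorem hull_cx {P : Set ℕ} (hP : ∀ p ∈ P, p.Prime) (h : ∀ p ∈ P, H2Zero p K) : Hull P K.Pi := by
  intro H hH
  obtain ⟨M, h1, h2, h3⟩ := hullZ P hP K.r (fun p hp => by
      have : Fact p.Prime := ⟨hP p hp⟩
      exact e0_of (h p hp)) (PresentedGroup.mk (Set.range K.r))
    (QuotientGroup.mk'_surjective _) (fun k => PresentedGroup.one_of_mem ⟨k, rfl⟩)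
    (fun x hx => (QuotientGroup.eq_one_iff x).1 hx) H hH.1 hH.2
  exact ⟨M, h1, h2, h3⟩

/-- Subcomplexes of contractible complexes. -/
theorem h2zero_of_sub (i : Sub K L) (hL : L.Contractible) (p : ℕ) : H2Zero p K := by
  classical
  unfold H2Zero
  rw [linearIndependent_iff']
  intro S x hx k hk
  have h1 := Pool.Agent.R655.LI.clk_indep hL (ZMod p) (fun s : S => i.c s.1)
    (fun a b h => Subtype.ext (i.c.injective h)) (fun s => x s.1) (by
      intro v
      by_cases hv : v ∈ Set.range i.v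
      · obtain ⟨w, rfl⟩ := hv
        have h2 := congrFun hx w
        rw [Finset.sum_apply, ← Finset.sum_coe_sort] at h2
        refine Eq.trans (Finset.sum_congr rfl fun s _ => ?_) h2
        rw [← i.comm, Pool.Agent.R655.LI.clk_sub]
        rfl
      · refine Finset.sum_eq_zero fun s _ => ?_
        rw [← i.comm, Pool.Agent.R655.LI.clk_sub' i _ _ v hv, mul_zero])
  exact congrFun h1 ⟨k, hk⟩

end

end Pool.Agent.W5h69.PT
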