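import Pool.Agent.W5h69.PT.Hm

set_option autoImplicit false

/-!
Independence of the relators modulo `p` passes to subgroups of index `p`.
-/

namespace Pool.Agent.W5h69.PT

open Function

/-- A function on `ℤ/p` with sum zero is a difference. -/
theorem exists_diff {p : ℕ} [hp : NeZero p] (z : ZMod p → ZMod p) (hz : ∑ a, z a = 0) :
    ∃ y : ZMod p → ZMod p, ∀ a, z a = y (a - 1) - y a := by
  have hsum : ∑ k ∈ Finset.range p, z (k : ZMod p) = ∑ a, z a := by
    refine Finset.sum_nbij' (fun k => (k : ZMod p)) (fun a => a.val) ?_ ?_ ?_ ?_ ?_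
    · intro a _; exact Finset.mem_univ _
    · intro a _; exact Finset.mem_range.2 (ZMod.val_lt a)
    · intro a ha; exact ZMod.val_natCast_of_lt (Finset.mem_range.1 ha)
    · intro a _; exact ZMod.natCast_zmod_val a
    · intro a _; rfl
  let y : ZMod p → ZMod p := fun a => - ∑ k ∈ Finset.range (a.val + 1), z (k : ZMod p)
  have hy : ∀ n < p, y (n : ZMod p) = - ∑ k ∈ Finset.range (n + 1), z (k : ZMod p) := by
    intro n hn
    simp only [y]
    rw [ZMod.val_natCast_of_lt hn]
  refine ⟨y, fun a => ?_⟩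
  obtain ⟨n, hn, rfl⟩ : ∃ n < p, ((n : ℕ) : ZMod p) = a :=
    ⟨a.val, ZMod.val_lt a, ZMod.natCast_zmod_val a⟩
  cases n with
  | zero =>
    have h1 : ((0 : ℕ) : ZMod p) - 1 = ((p - 1 : ℕ) : ZMod p) := by
      rw [Nat.cast_sub hn, ZMod.natCast_self]
      simp
    rw [h1, hy (p - 1) (by omega), hy 0 hn, Nat.sub_add_cancel hn, hsum, hz]
    simp
  | succ n =>
    have h1 : ((n + 1 : ℕ) : ZMod p) - 1 = (n : ZMod p) := by push_cast; ring
    rw [h1, hy n (by omega), hy (n + 1) hn, Finset.sum_range_succ _ (n + 1)]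
    ring

/-! ### The shift is unipotent -/

section
variable {p : ℕ} {Q : Type}

/-- The shift of a family of functions on `ℤ/p`. -/
def shf (p : ℕ) (Q : Type) : Module.End (ZMod p) (Q → ZMod p → ZMod p) where
  toFun v q a := v q (a - 1)
  map_add' _ _ := rfl
  map_smul' _ _ := rfl

lemma shf_pow (n : ℕ) (v : Q → ZMod p → ZMod p) (q : Q) (a : ZMod p) :
    ((shf p Q ^ n) v) q a = v q (a - n) := by
  induction n generalizing a with
  | zero => simp
  | succ n ih =>
    rw [pow_succ', Module.End.mul_apply]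
    change ((shf p Q ^ n) v) q (a - 1) = _
    rw [ih]
    congr 1
    push_cast
    ring

lemma shf_unip [Fact p.Prime] : (shf p Q - 1) ^ p = 0 := by
  have h1 : ((Polynomial.X - 1 : Polynomial (ZMod p)) ^ p) = Polynomial.X ^ p - 1 := by
    rw [sub_pow_char, one_pow]
  have h2 := congrArg (Polynomial.aeval (shf p Q)) h1
  rw [map_pow, map_sub, map_sub, map_pow, map_one, Polynomial.aeval_X] at h2
  rw [h2]
  ext v q a
  rw [LinearMap.sub_apply]
  change ((shf p Q ^ p) v) q a - v q a = 0
  rw [shf_pow]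
  simp

/-- Nakayama's lemma for the shift. -/
theorem nak [Fact p.Prime] (W : AddSubgroup (Q → ZMod p → ZMod p))
    (hW : ∀ v ∈ W, shf p Q v ∈ W)
    (h : ∀ v, ∃ w ∈ W, ∃ y, v = w + (shf p Q y - y)) (v : Q → ZMod p → ZMod p) : v ∈ W := by
  have hW' : ∀ n : ℕ, ∀ v ∈ W, ((shf p Q - 1) ^ n) v ∈ W := by
    intro n
    induction n with
    | zero => intro v hv; simpa using hv
    | succ n ih =>
      intro v hv
      rw [pow_succ, Module.End.mul_apply]
      apply ih
      exact W.sub_mem (hW v hv) hv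
  have key : ∀ k : ℕ, k ≤ p → ∀ v, ((shf p Q - 1) ^ (p - k)) v ∈ W := by
    intro k
    induction k with
    | zero =>
      intro _ v
      rw [Nat.sub_zero, shf_unip]
      exact W.zero_mem
    | succ k ih =>
      intro hk v
      obtain ⟨w, hw, y, rfl⟩ := h v
      rw [map_add]
      refine W.add_mem (hW' _ w hw) ?_
      have h1 : ((shf p Q - 1) ^ (p - (k + 1))) (shf p Q y - y) = ((shf p Q - 1) ^ (p - k)) y := by
        rw [show p - k = (p - (k + 1)) + 1 by omega, pow_succ, Module.End.mul_apply]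
        rfl
      rw [h1]
      exact ih (by omega) y
  have := key p le_rfl v
  rwa [Nat.sub_self, pow_zero, Module.End.one_apply] at this

end

/-! ### The step -/

section
variable {F : Type} [Group F] {I J : Type} (j : I → J) (ρ : J → F) (u : I → F)

/-- The conjugates of the relators. -/
def sc (i : I) : F := u i * ρ (j i) * (u i)⁻¹

/-- The relators `sc i` are independent modulo `p` on the subgroup `Γ`: additive functions on `Γ`
with values in `ℤ/p` take arbitrary values on them, except that conjugate ones have equal values. -/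
def EP (p : ℕ) (Γ : Subgroup F) : Prop :=
  ∀ b : I → ZMod p, (∀ i i', j i = j i' → u i * (u i')⁻¹ ∈ Γ → b i = b i') →
    ∃ g : F → ZMod p, HmOn Γ g ∧ ∀ i, g (sc j ρ u i) = b i

/-- conjugacy classes of relators in `Γ` -/
def cls (Γ : Subgroup F) : Setoid I where
  r i i' := j i = j i' ∧ u i * (u i')⁻¹ ∈ Γ
  iseqv :=
    { refl := fun i => ⟨rfl, by rw [mul_inv_cancel]; exact Γ.one_mem⟩
      symm := fun {i i'} h => ⟨h.1.symm, by
        have := Γ.inv_mem h.2
        rwa [mul_inv_rev, inv_inv] at this⟩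
      trans := fun {a b c} h h' => ⟨h.1.trans h'.1, by
        have := Γ.mul_mem h.2 h'.2
        rwa [mul_assoc, inv_mul_cancel_left] at this⟩ }

lemma sc_conj {i i' : I} (h : j i = j i') :
    sc j ρ u i = (u i * (u i')⁻¹) * sc j ρ u i' * (u i * (u i')⁻¹)⁻¹ := by
  unfold sc
  rw [h]
  group

variable {j ρ u}

theorem step [IsFreeGroup F] {p : ℕ} [Fact p.Prime] {Γ : Subgroup F} {c : F → ZMod p}
    (hc : HmOn Γ c) (hs : ∀ i, sc j ρ u i ∈ hc.ker) (hE : EP j ρ u p Γ) :
    EP j ρ u p hc.ker := by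
  classical
  let st : Setoid I := cls j u Γ
  let Q : Type := Quotient st
  let out : Q → I := Quotient.out
  have hout : ∀ i : I, j i = j (out (Quotient.mk st i)) ∧
      u i * (u (out (Quotient.mk st i)))⁻¹ ∈ Γ := by
    intro i
    have h1 : st.r (out (Quotient.mk st i)) i := Quotient.exact (Quotient.out_eq (Quotient.mk st i))
    exact st.symm h1
  -- all families of values
  have all_v : ∀ v : Q → ZMod p → ZMod p, ∃ D : F → ZMod p → ZMod p, IsX Γ c D ∧
      ∀ q a, D (sc j ρ u (out q)) a = v q a := by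
    let W : AddSubgroup (Q → ZMod p → ZMod p) :=
      { carrier := {v | ∃ D : F → ZMod p → ZMod p, IsX Γ c D ∧
          ∀ q a, D (sc j ρ u (out q)) a = v q a}
        zero_mem' := ⟨_, IsX.zero, fun q a => rfl⟩
        add_mem' := by
          rintro v v' ⟨D, hD, h⟩ ⟨D', hD', h'⟩
          exact ⟨_, hD.add hD', fun q a => by rw [h, h']; rfl⟩
        neg_mem' := by
          rintro v ⟨D, hD, h⟩
          exact ⟨_, hD.neg, fun q a => by rw [h]; rfl⟩ }
    intro v
    refine nak W ?_ ?_ v
    · rintro v ⟨D, hD, h⟩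
      exact ⟨_, hD.shift, fun q a => h q (a - 1)⟩
    · intro v
      obtain ⟨h, hh, hb⟩ := hE (fun i => ∑ a, v (Quotient.mk st i) a) (by
        intro i i' h1 h2
        have : Quotient.mk st i = Quotient.mk st i' := Quotient.sound ⟨h1, h2⟩
        rw [this])
      obtain ⟨D, hD, hsum⟩ := lift_X hc hh
      have h3 : ∀ q, ∑ a, (v q a - D (sc j ρ u (out q)) a) = 0 := by
        intro q
        rw [Finset.sum_sub_distrib, hsum _ (hs (out q)).1, hb, sub_eq_zero]
        have : Quotient.mk st (out q) = q := Quotient.out_eq q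
        rw [this]
      choose y hy using fun q => exists_diff _ (h3 q)
      refine ⟨fun q a => D (sc j ρ u (out q)) a, ⟨D, hD, fun q a => rfl⟩, y, ?_⟩
      funext q a
      change v q a = D (sc j ρ u (out q)) a + (y q (a - 1) - y q a)
      rw [← hy q a]
      ring
  intro b hb
  let γ : I → F := fun i => u i * (u (out (Quotient.mk st i)))⁻¹
  have hγ : ∀ i, γ i ∈ Γ := fun i => (hout i).2
  obtain ⟨D, hD, hv⟩ := all_v (fun q a =>
    if h : ∃ i, Quotient.mk st i = q ∧ 0 - c (γ i) = a then b h.choose else 0)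
  refine ⟨_, IsX.hm hc hD, fun i => ?_⟩
  have h1 : sc j ρ u i = γ i * sc j ρ u (out (Quotient.mk st i)) * (γ i)⁻¹ :=
    sc_conj j ρ u (hout i).1
  rw [h1, IsX.conj hc hD (hγ i) (hs _).1 (hs _).2, hv]
  have h2 : ∃ i', Quotient.mk st i' = Quotient.mk st i ∧ 0 - c (γ i') = 0 - c (γ i) := ⟨i, rfl, rfl⟩
  rw [dif_pos h2]
  obtain ⟨h3, h4⟩ := h2.choose_spec
  generalize h2.choose = i' at h3 h4
  refine (hb i i' ?_ ?_).symm
  · rw [(hout i).1, (hout i').1, h3]
  · have h5 : u i * (u i')⁻¹ = γ i * (γ i')⁻¹ := by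
      simp only [γ, h3]
      group
    rw [h5]
    refine ⟨Γ.mul_mem (hγ i) (Γ.inv_mem (hγ i')), ?_⟩
    have h6 : c (γ i') = c (γ i) := by simpa using h4
    rw [hc _ (hγ i) _ (Γ.inv_mem (hγ i')), hc.inv (hγ i'), h6]
    ring

end

end Pool.Agent.W5h69.PT
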